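import Pool.Agent.C4N.Stm

/-!
# MRK, numerical inequalities
-/

set_option autoImplicit false

open scoped BigOperators Classical

noncomputable section

namespace Pool.Agent.C4N.H91

open Filter

lemma ev_exp (b : ℕ) (c α : ℝ) (hc : 0 < c) (hα : 0 < α) :
    ∀ᶠ x : ℝ in atTop, Real.exp (-(c * x ^ α)) * x ^ b ≤ 1 := by
  have h1 := tendsto_rpow_mul_exp_neg_mul_atTop_nhds_zero (b / α) c hc
  have h2 := h1.comp (tendsto_rpow_atTop hα)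
  have h3 : ∀ᶠ x : ℝ in atTop, ((fun x : ℝ => x ^ (b / α : ℝ) * Real.exp (-c * x)) ∘
      fun x : ℝ => x ^ α) x < 1 := h2.eventually_lt_const one_pos
  filter_upwards [h3, eventually_ge_atTop (1 : ℝ)] with x hx hx1
  simp only [Function.comp] at hx
  have h4 : (x ^ α) ^ (b / α : ℝ) = x ^ b := by
    rw [← Real.rpow_mul (by linarith), mul_div_cancel₀ _ hα.ne', Real.rpow_natCast]
  rw [h4, neg_mul] at hx
  rw [mul_comm]
  exact hx.le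

lemma ev_rpow (α : ℝ) (hα : 0 < α) (B : ℝ) : ∀ᶠ x : ℝ in atTop, B ≤ x ^ α :=
  (tendsto_rpow_atTop hα).eventually_ge_atTop B

/-- the numerical conditions -/
structure Num (C L : ℕ) (c2 δ : ℝ) (C1 m : ℕ) (DT : ℝ) (K k s : ℕ) (τ : ℝ) : Prop where
  K1 : 1 ≤ K
  CK : C ≤ K
  s0 : 1 ≤ s
  sK : s ≤ K
  na : 2 * (K : ℝ) * Real.exp (-(((k : ℝ) ^ (0.505 : ℝ)) ^ 2 / (2 * k))) ≤ τ
  nd : Real.exp (-((s : ℝ) / 2)) ≤ τ
  ne : Real.exp (-(s * (k : ℝ) ^ (-(c2 / 2)) / 2)) ≤ τ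
  nf : ((L : ℝ) + 1) * ((2 * K + C + 1 : ℕ) : ℝ) ^ L * (DT / (K : ℝ) ^ δ) ^ m ≤ τ
  ng : ((K : ℝ) ^ (1 / 50000 : ℝ) * ((s : ℝ) / K)) ^ C1 ≤ τ
  nc : Real.exp (-(((C4K.kL1 k - 1 : ℕ) : ℝ) * ((s : ℝ) / K))) ≤ τ
  nd' : 4 * (C : ℝ) ≤ s
  ne' : 2 * ((k : ℝ) ^ (1 - c2) * ((s : ℝ) / K)) + s * (k : ℝ) ^ (-(c2 / 2)) / 2 ≤
    s * (k : ℝ) ^ (-(c2 / 2))
  na' : (k : ℝ) ^ (0.505 : ℝ) + ((k : ℝ) ^ (0.48 : ℝ) + C + 1) * ((s : ℝ) / K) ≤
    (k : ℝ) ^ (-0.48 : ℝ) * (11 * s * s / K)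
  nm : 2 * (K : ℝ) * Real.exp (-(((k : ℝ) ^ (0.6 : ℝ)) ^ 2 / (2 * (72 * k)))) ≤ τ
  nh : Real.exp (-((K : ℝ) ^ (1 - 1 / 50000 : ℝ) / 4)) ≤ τ
  nh' : 8 * ((2 * K + C) * (K : ℝ) ^ (1 / 50000 : ℝ) * ((s : ℝ) / K)) ≤
    (K : ℝ) ^ (1 - 1 / 50000 : ℝ)
  nm1 : (k : ℝ) ^ (0.48 : ℝ) * ((s : ℝ) / K) ^ 2 + (k : ℝ) ^ (0.6 : ℝ) ≤
    11 * s * ((s : ℝ) / K) ^ 2
  nm2 : 160 * (s * (k : ℝ) ^ (-c2)) * ((s : ℝ) / K) ^ 2 +
    2 * (k : ℝ) ^ (1 - c2) * ((s : ℝ) / K) ^ 3 + 2 * (k : ℝ) ^ (0.6 : ℝ) + 2 ≤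
    ((s : ℝ) / K) ^ 2 * (s * (k : ℝ) ^ (-(c2 / 2)))
  nL : C4K.kL1 k ≤ k
  nM : 4 * (C4K.kL1 k : ℝ) ≤ (k : ℝ) ^ (0.539 : ℝ)

theorem num (C L : ℕ) (c2 : ℝ) (hc2 : 0 < c2) (hc2' : c2 ≤ 1 / 1000) : ∃ C1 : ℕ,
    ∀ δ : ℝ, 0 < δ → ∃ m : ℕ, ∀ DT : ℝ, 1 ≤ DT → ∃ K0 : ℕ, ∀ K k s : ℕ, K0 ≤ K → k = K + C →
      s = ss k → Num C L c2 δ C1 m DT K k s
        (1 / (160 * (((2 * K + C + 1 : ℕ) : ℝ) ^ (L + 4)) ^ 2)) := by
  set b : ℕ := 4 * L + 17 with hb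
  refine ⟨100000 * b, ?_⟩
  intro δ hδ
  obtain ⟨m, hm⟩ : ∃ m : ℕ, (2 * L + b + 1 : ℝ) / δ ≤ m := exists_nat_ge _
  rw [div_le_iff₀ hδ] at hm
  refine ⟨m, ?_⟩
  intro DT hDT
  -- the conditions on `x = k`
  have hev : ∀ᶠ x : ℝ in atTop, (160 ≤ x ∧ 4 * (C : ℝ) ≤ x ^ (0.9999 : ℝ) ∧
      Real.exp (-(1 / 2 * x ^ (0.01 : ℝ))) * x ^ (b + 2) ≤ 1 ∧
      Real.exp (-(1 / 2 * x ^ (0.99 : ℝ))) * x ^ b ≤ 1 ∧
      Real.exp (-(1 / 2 * x ^ (0.0005 : ℝ))) * x ^ b ≤ 1) ∧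
      (((L : ℝ) + 1) * DT ^ m * 2 ^ (δ * m) ≤ x ∧ 4 ≤ x ^ (0.00005 : ℝ) ∧ 1000 ≤ x ^ (c2 / 2) ∧
      (C : ℝ) + 1 ≤ x ^ (0.515 : ℝ) ∧ 4 ≤ x ^ (0.003 : ℝ)) ∧
      Real.exp (-(1 / 144 * x ^ (0.2 : ℝ))) * x ^ (b + 2) ≤ 1 ∧
      Real.exp (-(1 / 8 * x ^ (0.99 : ℝ))) * x ^ b ≤ 1 ∧ 96 ≤ x ^ (0.00006 : ℝ) := by
    refine (((eventually_ge_atTop 160).and ((ev_rpow _ (by norm_num) _).and
      ((ev_exp (b + 2) (1 / 2) 0.01 (by norm_num) (by norm_num)).and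
      ((ev_exp b (1 / 2) 0.99 (by norm_num) (by norm_num)).and
      (ev_exp b (1 / 2) 0.0005 (by norm_num) (by norm_num)))))).and
      (((eventually_ge_atTop _).and ((ev_rpow _ (by norm_num) _).and
      ((ev_rpow _ (by positivity) _).and ((ev_rpow _ (by norm_num) _).and
      (ev_rpow _ (by norm_num) _))))).and
      ((ev_exp (b + 2) (1 / 144) 0.2 (by norm_num) (by norm_num)).and
      ((ev_exp b (1 / 8) 0.99 (by norm_num) (by norm_num)).and (ev_rpow _ (by norm_num) _)))))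
  have htend : Tendsto (fun K : ℕ => ((K + C : ℕ) : ℝ)) atTop atTop :=
    tendsto_natCast_atTop_atTop.comp (tendsto_add_atTop_nat C)
  obtain ⟨K0, hK0⟩ := eventually_atTop.mp
    ((htend.eventually hev).and (eventually_ge_atTop (max 1 C)))
  refine ⟨K0, ?_⟩
  intro K k s hK hk hs
  obtain ⟨⟨⟨x96, xC, x3, x4, x5⟩, ⟨x6, x7, x8, x9, x10⟩, x11, x12, x13⟩, hKC⟩ := hK0 K hK
  rw [← hk] at x96 xC x3 x4 x5 x6 x7 x8 x9 x10 x11 x12 x13
  have hK1 : 1 ≤ K := (le_max_left _ _).trans hKC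
  have hCK : C ≤ K := (le_max_right _ _).trans hKC
  set x : ℝ := (k : ℝ) with hx
  have hx0 : 0 < x := by linarith
  have hx1 : 1 ≤ x := by linarith
  have hKr : (0 : ℝ) < K := by exact_mod_cast hK1
  have hKx : (K : ℝ) ≤ x := by
    rw [hx, hk]; push_cast; linarith [(Nat.cast_nonneg C : (0 : ℝ) ≤ C)]
  have hxK : x ≤ 2 * K := by
    rw [hx, hk]; push_cast
    have : (C : ℝ) ≤ K := by exact_mod_cast hCK
    linarith
  -- the power of K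
  have hKp : x ^ (1 - 1 / 50000 : ℝ) / 2 ≤ (K : ℝ) ^ (1 - 1 / 50000 : ℝ) := by
    have h1 : x ^ (1 - 1 / 50000 : ℝ) ≤ (2 * (K : ℝ)) ^ (1 - 1 / 50000 : ℝ) :=
      Real.rpow_le_rpow hx0.le hxK (by norm_num)
    rw [Real.mul_rpow (by norm_num) hKr.le] at h1
    have h2 : (2 : ℝ) ^ (1 - 1 / 50000 : ℝ) ≤ 2 ^ (1 : ℝ) :=
      Real.rpow_le_rpow_of_exponent_le (by norm_num) (by norm_num)
    rw [Real.rpow_one] at h2
    have h3 : 0 < (K : ℝ) ^ (1 - 1 / 50000 : ℝ) := Real.rpow_pos_of_pos hKr _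
    nlinarith
  -- powers
  have padd : ∀ a c : ℝ, x ^ a * x ^ c = x ^ (a + c) := fun a c => (Real.rpow_add hx0 a c).symm
  have pmono : ∀ {a c : ℝ}, a ≤ c → x ^ a ≤ x ^ c := fun h =>
    Real.rpow_le_rpow_of_exponent_le hx1 h
  have ppos : ∀ a : ℝ, 0 < x ^ a := fun a => Real.rpow_pos_of_pos hx0 a
  have pone : ∀ a : ℝ, x ^ a * x = x ^ (a + 1) := fun a => by
    rw [Real.rpow_add hx0, Real.rpow_one]
  -- the size of s
  have hs1 : x ^ (0.9999 : ℝ) ≤ s := by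
    rw [hs, ss]
    have : (1 - 1 / 10000 : ℝ) = 0.9999 := by norm_num
    rw [this]
    exact Nat.le_ceil _
  have hs2 : (s : ℝ) ≤ 2 * x ^ (0.9999 : ℝ) := by
    rw [hs, ss]
    have : (1 - 1 / 10000 : ℝ) = 0.9999 := by norm_num
    rw [this]
    have h1 := (Nat.ceil_lt_add_one (ppos 0.9999).le).le
    have h2 : 1 ≤ x ^ (0.9999 : ℝ) := Real.one_le_rpow hx1 (by norm_num)
    linarith
  have hs0 : (0 : ℝ) < s := lt_of_lt_of_le (ppos _) hs1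
  have p1 : x ^ (1 : ℝ) = x := Real.rpow_one x
  -- s / K
  have hq2 : (s : ℝ) / K ≤ 4 * x ^ (-0.0001 : ℝ) := by
    rw [div_le_iff₀ hKr]
    have h1 : x ^ (-0.0001 : ℝ) * x = x ^ (0.9999 : ℝ) := by
      rw [pone]; norm_num
    calc (s : ℝ) ≤ 2 * x ^ (0.9999 : ℝ) := hs2
      _ = 2 * (x ^ (-0.0001 : ℝ) * x) := by rw [h1]
      _ ≤ 2 * (x ^ (-0.0001 : ℝ) * (2 * K)) := by
          have := ppos (-0.0001)
          gcongr
      _ = 4 * x ^ (-0.0001 : ℝ) * K := by ring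
  have hq1 : x ^ (-0.0001 : ℝ) ≤ (s : ℝ) / K := by
    rw [le_div_iff₀ hKr]
    have h1 : x ^ (-0.0001 : ℝ) * x = x ^ (0.9999 : ℝ) := by
      rw [pone]; norm_num
    calc x ^ (-0.0001 : ℝ) * K ≤ x ^ (-0.0001 : ℝ) * x :=
          mul_le_mul_of_nonneg_left hKx (ppos _).le
      _ = x ^ (0.9999 : ℝ) := h1
      _ ≤ s := hs1
  have hq3 : (s : ℝ) / K ≤ 1 := by
    refine hq2.trans ?_
    have h1 : x ^ (-0.0001 : ℝ) * x ^ (0.0001 : ℝ) = 1 := by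
      rw [padd]; norm_num
    have h2 : 4 ≤ x ^ (0.0001 : ℝ) := x7.trans (pmono (by norm_num))
    have h3 := ppos (-0.0001)
    nlinarith
  have hsK : s ≤ K := by
    have : (s : ℝ) ≤ K := by rwa [div_le_one hKr] at hq3
    exact_mod_cast this
  -- the number `D`
  set D0 : ℝ := ((2 * K + C + 1 : ℕ) : ℝ) with hD0
  have hD0x : D0 ≤ x ^ 2 := by
    have h1 : D0 ≤ 2 * x + 1 := by
      rw [hD0, hx, hk]; push_cast
      have : (0 : ℝ) ≤ C := Nat.cast_nonneg C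
      linarith
    nlinarith
  have hD01 : 1 ≤ D0 := by
    rw [hD0]; push_cast
    have : (0 : ℝ) ≤ C := Nat.cast_nonneg C
    linarith
  have hD : 160 * (D0 ^ (L + 4)) ^ 2 ≤ x ^ b := by
    calc 160 * (D0 ^ (L + 4)) ^ 2 ≤ x * ((x ^ 2) ^ (L + 4)) ^ 2 := by
          have h0 : (0 : ℝ) ≤ D0 := by linarith
          gcongr
      _ = x ^ b := by rw [hb]; ring
  have hDpos : 0 < 160 * (D0 ^ (L + 4)) ^ 2 := by
    have h0 : (0 : ℝ) < D0 := by linarith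
    positivity
  -- the main tool
  have main : ∀ y : ℝ, y * x ^ b ≤ 1 → 0 ≤ y → y ≤ 1 / (160 * (D0 ^ (L + 4)) ^ 2) := by
    intro y hy hy0
    rw [le_div_iff₀ hDpos]
    exact (mul_le_mul_of_nonneg_left hD hy0).trans hy
  have hL1a : (C4K.kL1 x : ℝ) ≤ x ^ (0.003 : ℝ) := Nat.floor_le (ppos _).le
  have hL1b : x ^ (0.003 : ℝ) - 1 ≤ (C4K.kL1 x : ℝ) := by
    have := Nat.lt_floor_add_one (x ^ (0.003 : ℝ))
    unfold C4K.kL1
    linarith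
  refine ⟨hK1, hCK, ?_, hsK, ?_, ?_, ?_, ?_, ?_, ?_, ?_, ?_, ?_, ?_, ?_, ?_, ?_, ?_, ?_, ?_⟩
  · have : (0 : ℝ) < s := hs0
    exact_mod_cast this
  · -- na
    have h1 : (x ^ (0.505 : ℝ)) ^ 2 / (2 * x) = 1 / 2 * x ^ (0.01 : ℝ) := by
      have h2 : (x ^ (0.505 : ℝ)) ^ 2 = x ^ (0.01 : ℝ) * x := by
        rw [← Real.rpow_natCast, ← Real.rpow_mul hx0.le]
        rw [pone]
        norm_num
      rw [h2]
      field_simp
    rw [h1]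
    apply main _ _ (by positivity)
    have h2 : 2 * (K : ℝ) ≤ x ^ 2 := by nlinarith
    have h3 := Real.exp_pos (-(1 / 2 * x ^ (0.01 : ℝ)))
    calc 2 * (K : ℝ) * Real.exp (-(1 / 2 * x ^ (0.01 : ℝ))) * x ^ b
        ≤ x ^ 2 * Real.exp (-(1 / 2 * x ^ (0.01 : ℝ))) * x ^ b := by gcongr
      _ = Real.exp (-(1 / 2 * x ^ (0.01 : ℝ))) * x ^ (b + 2) := by ring
      _ ≤ 1 := x3
  · -- nd
    apply main _ _ (Real.exp_pos _).le
    refine le_trans (mul_le_mul_of_nonneg_right (Real.exp_le_exp.mpr ?_) (by positivity)) x4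
    have h1 : x ^ (0.99 : ℝ) ≤ x ^ (0.9999 : ℝ) := pmono (by norm_num)
    linarith
  · -- ne
    apply main _ _ (Real.exp_pos _).le
    refine le_trans (mul_le_mul_of_nonneg_right (Real.exp_le_exp.mpr ?_) (by positivity)) x4
    have h1 : x ^ (0.99 : ℝ) ≤ s * x ^ (-(c2 / 2)) := by
      calc x ^ (0.99 : ℝ) ≤ x ^ (0.9999 + (-(c2 / 2)) : ℝ) := pmono (by linarith)
        _ = x ^ (0.9999 : ℝ) * x ^ (-(c2 / 2)) := (padd _ _).symm
        _ ≤ s * x ^ (-(c2 / 2)) := mul_le_mul_of_nonneg_right hs1 (ppos _).le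
    linarith
  · -- nf
    have hDT0 : 0 < DT := by linarith
    have hKδ : 0 < (K : ℝ) ^ δ := Real.rpow_pos_of_pos hKr _
    apply main _ _ (by positivity)
    have h1 : (DT / (K : ℝ) ^ δ) ^ m ≤ DT ^ m * 2 ^ (δ * m) * x ^ (-(δ * m)) := by
      rw [div_pow, div_le_iff₀ (by positivity)]
      have h2 : (1 : ℝ) ≤ 2 ^ (δ * m) * x ^ (-(δ * m)) * ((K : ℝ) ^ δ) ^ m := by
        rw [← Real.rpow_natCast ((K : ℝ) ^ δ), ← Real.rpow_mul hKr.le, mul_right_comm,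
          ← Real.mul_rpow (by norm_num) hKr.le, Real.rpow_neg hx0.le, ← div_eq_mul_inv,
          ← Real.div_rpow (by positivity) hx0.le]
        apply Real.one_le_rpow _ (by positivity)
        rw [le_div_iff₀ hx0]
        linarith
      calc DT ^ m = DT ^ m * 1 := by ring
        _ ≤ DT ^ m * (2 ^ (δ * m) * x ^ (-(δ * m)) * ((K : ℝ) ^ δ) ^ m) := by gcongr
        _ = _ := by ring
    have h3 : D0 ^ L ≤ x ^ (2 * L) := by
      rw [pow_mul]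
      exact pow_le_pow_left₀ (by linarith) hD0x L
    calc ((L : ℝ) + 1) * D0 ^ L * (DT / (K : ℝ) ^ δ) ^ m * x ^ b
        ≤ ((L : ℝ) + 1) * x ^ (2 * L) * (DT ^ m * 2 ^ (δ * m) * x ^ (-(δ * m))) * x ^ b := by
          gcongr
      _ = (((L : ℝ) + 1) * DT ^ m * 2 ^ (δ * m)) * (x ^ (2 * L + b) * x ^ (-(δ * m))) := by ring
      _ ≤ x * (x ^ (2 * L + b) * x ^ (-(δ * m))) := by
          have := ppos (-(δ * m))
          gcongr
      _ = x ^ (((2 * L + b + 1 : ℕ) : ℝ) + (-(δ * m))) := by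
          rw [← padd, Real.rpow_natCast]; ring
      _ ≤ x ^ (0 : ℝ) := by
          apply pmono
          push_cast
          linarith
      _ = 1 := Real.rpow_zero x
  · -- ng
    apply main _ _ (by positivity)
    have h1 : (K : ℝ) ^ (1 / 50000 : ℝ) * ((s : ℝ) / K) ≤ x ^ (-0.00001 : ℝ) := by
      calc (K : ℝ) ^ (1 / 50000 : ℝ) * ((s : ℝ) / K) ≤ x ^ (1 / 50000 : ℝ) *
            (4 * x ^ (-0.0001 : ℝ)) := by
            have h2 : (K : ℝ) ^ (1 / 50000 : ℝ) ≤ x ^ (1 / 50000 : ℝ) :=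
              Real.rpow_le_rpow hKr.le hKx (by norm_num)
            have h3 := ppos (-0.0001)
            have h4 : 0 ≤ (s : ℝ) / K := by positivity
            exact mul_le_mul h2 hq2 h4 (ppos _).le
        _ ≤ x ^ (1 / 50000 : ℝ) * (x ^ (0.00005 : ℝ) * x ^ (-0.0001 : ℝ)) := by
            have h3 := ppos (-0.0001)
            have h4 := ppos (1 / 50000)
            gcongr
        _ = x ^ (-0.00003 : ℝ) := by rw [padd, padd]; norm_num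
        _ ≤ x ^ (-0.00001 : ℝ) := pmono (by norm_num)
    have h2 : ((K : ℝ) ^ (1 / 50000 : ℝ) * ((s : ℝ) / K)) ^ (100000 * b) ≤
        (x ^ (-0.00001 : ℝ)) ^ (100000 * b) := pow_le_pow_left₀ (by positivity) h1 _
    have h3 : (x ^ (-0.00001 : ℝ)) ^ (100000 * b) * x ^ b = 1 := by
      rw [← Real.rpow_natCast (x ^ (-0.00001 : ℝ)), ← Real.rpow_mul hx0.le,
        ← Real.rpow_natCast x b, padd]
      have h4 : (-0.00001 : ℝ) * ((100000 * b : ℕ) : ℝ) + (b : ℝ) = 0 := by push_cast; ring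
      rw [h4, Real.rpow_zero]
    calc _ ≤ (x ^ (-0.00001 : ℝ)) ^ (100000 * b) * x ^ b :=
          mul_le_mul_of_nonneg_right h2 (by positivity)
      _ ≤ 1 := h3.le
  · -- nc
    apply main _ _ (Real.exp_pos _).le
    refine le_trans (mul_le_mul_of_nonneg_right (Real.exp_le_exp.mpr (neg_le_neg ?_))
      (by positivity)) x5
    have h1 : x ^ (0.003 : ℝ) / 2 ≤ ((C4K.kL1 x - 1 : ℕ) : ℝ) := by
      have h2 : (C4K.kL1 x : ℝ) - 1 ≤ ((C4K.kL1 x - 1 : ℕ) : ℝ) := by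
        have h3 : C4K.kL1 x ≤ (C4K.kL1 x - 1) + 1 := by omega
        have h4 : (C4K.kL1 x : ℝ) ≤ ((C4K.kL1 x - 1 : ℕ) : ℝ) + 1 := by exact_mod_cast h3
        linarith
      linarith
    calc 1 / 2 * x ^ (0.0005 : ℝ) ≤ (x ^ (0.003 : ℝ) / 2) * x ^ (-0.0001 : ℝ) := by
          have h2 : x ^ (0.003 : ℝ) * x ^ (-0.0001 : ℝ) = x ^ (0.0029 : ℝ) := by
            rw [padd]; norm_num
          have h3 : x ^ (0.0005 : ℝ) ≤ x ^ (0.0029 : ℝ) := pmono (by norm_num)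
          linarith
      _ ≤ ((C4K.kL1 x - 1 : ℕ) : ℝ) * ((s : ℝ) / K) :=
          mul_le_mul h1 hq1 (ppos _).le (Nat.cast_nonneg _)
  · -- nd'
    exact xC.trans hs1
  · -- ne'
    have h1 : 2 * (x ^ (1 - c2) * ((s : ℝ) / K)) ≤ 4 * (s * x ^ (-c2)) := by
      have h2 : x ^ (1 - c2) = x ^ (-c2) * x := by
        rw [pone]
        congr 1
        ring
      rw [h2]
      have h3 : x * ((s : ℝ) / K) ≤ 2 * s := by
        rw [mul_div_assoc', div_le_iff₀ hKr]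
        nlinarith
      have h4 := ppos (-c2)
      calc 2 * (x ^ (-c2) * x * ((s : ℝ) / K)) = 2 * x ^ (-c2) * (x * ((s : ℝ) / K)) := by ring
        _ ≤ 2 * x ^ (-c2) * (2 * s) := by gcongr
        _ = 4 * (s * x ^ (-c2)) := by ring
    have h2 : 8 * x ^ (-c2) ≤ x ^ (-(c2 / 2)) := by
      have h3 : x ^ (c2 / 2) * x ^ (-c2) = x ^ (-(c2 / 2)) := by
        rw [padd]; congr 1; ring
      rw [← h3]
      exact mul_le_mul_of_nonneg_right (by linarith) (ppos _).le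
    have h3 : s * (8 * x ^ (-c2)) ≤ s * x ^ (-(c2 / 2)) := mul_le_mul_of_nonneg_left h2 hs0.le
    linarith
  · -- na'
    have h1 : (x ^ (0.48 : ℝ) + C + 1) * ((s : ℝ) / K) ≤ x ^ (0.48 : ℝ) + C + 1 := by
      apply mul_le_of_le_one_right _ hq3
      have := ppos 0.48
      positivity
    have h2 : x ^ (0.505 : ℝ) ≤ x ^ (0.515 : ℝ) := pmono (by norm_num)
    have h3 : x ^ (0.48 : ℝ) ≤ x ^ (0.515 : ℝ) := pmono (by norm_num)
    have h4 : x ^ (0.515 : ℝ) ≤ x ^ (-0.48 : ℝ) * (s * s / K) := by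
      calc x ^ (0.515 : ℝ) ≤ x ^ (-0.48 + (0.9999 + -0.0001) : ℝ) := pmono (by norm_num)
        _ = x ^ (-0.48 : ℝ) * (x ^ (0.9999 : ℝ) * x ^ (-0.0001 : ℝ)) := by
            rw [padd, padd]
        _ ≤ x ^ (-0.48 : ℝ) * (s * (s / K)) := by
            have := ppos (-0.48)
            have := ppos (-0.0001)
            gcongr
        _ = x ^ (-0.48 : ℝ) * (s * s / K) := by ring
    have h5 : x ^ (-0.48 : ℝ) * (11 * s * s / K) = 11 * (x ^ (-0.48 : ℝ) * (s * s / K)) := by ring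
    rw [h5]
    have h6 := ppos 0.515
    linarith
  · -- nm
    have h1 : (x ^ (0.6 : ℝ)) ^ 2 / (2 * (72 * x)) = 1 / 144 * x ^ (0.2 : ℝ) := by
      have h2 : (x ^ (0.6 : ℝ)) ^ 2 = x ^ (0.2 : ℝ) * x := by
        rw [← Real.rpow_natCast, ← Real.rpow_mul hx0.le]
        rw [pone]
        norm_num
      rw [h2]
      field_simp
      ring
    rw [h1]
    apply main _ _ (by positivity)
    have h2 : 2 * (K : ℝ) ≤ x ^ 2 := by nlinarith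
    have h3 := Real.exp_pos (-(1 / 144 * x ^ (0.2 : ℝ)))
    calc 2 * (K : ℝ) * Real.exp (-(1 / 144 * x ^ (0.2 : ℝ))) * x ^ b
        ≤ x ^ 2 * Real.exp (-(1 / 144 * x ^ (0.2 : ℝ))) * x ^ b := by gcongr
      _ = Real.exp (-(1 / 144 * x ^ (0.2 : ℝ))) * x ^ (b + 2) := by ring
      _ ≤ 1 := x11
  · -- nh
    apply main _ _ (Real.exp_pos _).le
    refine le_trans (mul_le_mul_of_nonneg_right (Real.exp_le_exp.mpr (neg_le_neg ?_))
      (by positivity)) x12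
    have h1 : x ^ (0.99 : ℝ) ≤ x ^ (1 - 1 / 50000 : ℝ) := pmono (by norm_num)
    linarith
  · -- nh'
    have hC' : (C : ℝ) ≤ K := by exact_mod_cast hCK
    have h1 : (2 * K + C) * (K : ℝ) ^ (1 / 50000 : ℝ) * ((s : ℝ) / K) ≤
        6 * (x ^ (0.9999 : ℝ) * x ^ (1 / 50000 : ℝ)) := by
      have h2 : (K : ℝ) ^ (1 / 50000 : ℝ) ≤ x ^ (1 / 50000 : ℝ) :=
        Real.rpow_le_rpow hKr.le hKx (by norm_num)
      have h3 : (2 * (K : ℝ) + C) * ((s : ℝ) / K) ≤ 3 * s := by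
        rw [mul_div_assoc', div_le_iff₀ hKr]
        nlinarith
      have h4 : 0 < (K : ℝ) ^ (1 / 50000 : ℝ) := Real.rpow_pos_of_pos hKr _
      calc (2 * K + C) * (K : ℝ) ^ (1 / 50000 : ℝ) * ((s : ℝ) / K) =
            ((2 * K + C) * ((s : ℝ) / K)) * (K : ℝ) ^ (1 / 50000 : ℝ) := by ring
        _ ≤ (3 * s) * (K : ℝ) ^ (1 / 50000 : ℝ) := mul_le_mul_of_nonneg_right h3 h4.le
        _ ≤ (3 * s) * x ^ (1 / 50000 : ℝ) := mul_le_mul_of_nonneg_left h2 (by positivity)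
        _ ≤ (3 * (2 * x ^ (0.9999 : ℝ))) * x ^ (1 / 50000 : ℝ) := by
            have := ppos (1 / 50000)
            gcongr
        _ = 6 * (x ^ (0.9999 : ℝ) * x ^ (1 / 50000 : ℝ)) := by ring
    have h2 : 48 * (x ^ (0.9999 : ℝ) * x ^ (1 / 50000 : ℝ)) ≤ x ^ (1 - 1 / 50000 : ℝ) / 2 := by
      have h3 : x ^ (0.00006 : ℝ) * (x ^ (0.9999 : ℝ) * x ^ (1 / 50000 : ℝ)) =
          x ^ (1 - 1 / 50000 : ℝ) := by
        rw [padd, padd]; norm_num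
      rw [← h3]
      have h4 : 0 < x ^ (0.9999 : ℝ) * x ^ (1 / 50000 : ℝ) := mul_pos (ppos _) (ppos _)
      nlinarith
    linarith
  · -- nm1
    have hp0 : 0 < x ^ (-0.0001 : ℝ) := ppos _
    have h1 : x ^ (0.48 : ℝ) * ((s : ℝ) / K) ^ 2 ≤ x ^ (0.48 : ℝ) := by
      apply mul_le_of_le_one_right (ppos _).le
      exact pow_le_one₀ (by positivity) hq3
    have h2 : x ^ (0.48 : ℝ) ≤ x ^ (0.6 : ℝ) := pmono (by norm_num)
    have h3 : x ^ (0.6 : ℝ) ≤ s * ((s : ℝ) / K) ^ 2 := by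
      calc x ^ (0.6 : ℝ) ≤ x ^ (0.9999 + (-0.0001 + -0.0001) : ℝ) := pmono (by norm_num)
        _ = x ^ (0.9999 : ℝ) * (x ^ (-0.0001 : ℝ)) ^ 2 := by
            rw [pow_two, padd, padd]
        _ ≤ s * ((s : ℝ) / K) ^ 2 := by gcongr
    have h4 : 11 * (s : ℝ) * ((s : ℝ) / K) ^ 2 = 11 * (s * ((s : ℝ) / K) ^ 2) := by ring
    rw [h4]
    have h5 := ppos 0.6
    linarith
  · -- nm2
    set p : ℝ := (s : ℝ) / K with hp
    have hp0 : 0 < p := by rw [hp]; positivity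
    have hp1 : 0 < x ^ (-0.0001 : ℝ) := ppos _
    have h1 : x ^ (1 - c2) * p ≤ 2 * (s * x ^ (-c2)) := by
      have h2 : x ^ (1 - c2) = x ^ (-c2) * x := by
        rw [pone]
        congr 1
        ring
      rw [h2]
      have h3 : x * p ≤ 2 * s := by
        rw [hp, mul_div_assoc', div_le_iff₀ hKr]
        nlinarith
      have h4 := ppos (-c2)
      calc x ^ (-c2) * x * p = x ^ (-c2) * (x * p) := by ring
        _ ≤ x ^ (-c2) * (2 * s) := by gcongr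
        _ = 2 * (s * x ^ (-c2)) := by ring
    have h2 : 1000 * x ^ (-c2) ≤ x ^ (-(c2 / 2)) := by
      have h3 : x ^ (c2 / 2) * x ^ (-c2) = x ^ (-(c2 / 2)) := by
        rw [padd]; congr 1; ring
      rw [← h3]
      exact mul_le_mul_of_nonneg_right x8 (ppos _).le
    have h3 : x ^ (0.9992 : ℝ) ≤ p ^ 2 * (s * x ^ (-(c2 / 2))) := by
      calc x ^ (0.9992 : ℝ) ≤ x ^ ((-0.0001 + -0.0001) + (0.9999 + -(c2 / 2)) : ℝ) :=
            pmono (by linarith)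
        _ = (x ^ (-0.0001 : ℝ)) ^ 2 * (x ^ (0.9999 : ℝ) * x ^ (-(c2 / 2))) := by
            rw [pow_two, padd, padd, padd]
        _ ≤ p ^ 2 * (s * x ^ (-(c2 / 2))) := by
            have := ppos (-(c2 / 2))
            gcongr
    have h4 : 16 * x ^ (0.6 : ℝ) ≤ x ^ (0.9992 : ℝ) := by
      have h5 : x ^ (0.00005 : ℝ) * (x ^ (0.00005 : ℝ) * x ^ (0.6 : ℝ)) = x ^ (0.6001 : ℝ) := by
        rw [padd, padd]; norm_num
      have h6 : x ^ (0.6001 : ℝ) ≤ x ^ (0.9992 : ℝ) := pmono (by norm_num)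
      have h7 := ppos 0.6
      have h8 : 4 * x ^ (0.6 : ℝ) ≤ x ^ (0.00005 : ℝ) * x ^ (0.6 : ℝ) :=
        mul_le_mul_of_nonneg_right x7 h7.le
      have h9 : 4 * (4 * x ^ (0.6 : ℝ)) ≤ x ^ (0.00005 : ℝ) *
          (x ^ (0.00005 : ℝ) * x ^ (0.6 : ℝ)) :=
        mul_le_mul x7 h8 (by positivity) (ppos _).le
      linarith
    have h5 : 1 ≤ x ^ (0.6 : ℝ) := Real.one_le_rpow hx1 (by norm_num)
    have h6 : 2 * x ^ (1 - c2) * p ^ 3 ≤ 4 * (s * x ^ (-c2)) * p ^ 2 := by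
      calc 2 * x ^ (1 - c2) * p ^ 3 = 2 * (x ^ (1 - c2) * p) * p ^ 2 := by ring
        _ ≤ 2 * (2 * (s * x ^ (-c2))) * p ^ 2 := by gcongr
        _ = 4 * (s * x ^ (-c2)) * p ^ 2 := by ring
    have h7 : 328 * (s * x ^ (-c2)) * p ^ 2 ≤ p ^ 2 * (s * x ^ (-(c2 / 2))) := by
      have h8 : s * (1000 * x ^ (-c2)) ≤ s * x ^ (-(c2 / 2)) :=
        mul_le_mul_of_nonneg_left h2 hs0.le
      have h9 : 0 < s * x ^ (-c2) := mul_pos hs0 (ppos _)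
      have h10 : 328 * (s * x ^ (-c2)) ≤ s * x ^ (-(c2 / 2)) := by linarith
      rw [mul_comm (p ^ 2)]
      exact mul_le_mul_of_nonneg_right h10 (by positivity)
    linarith
  · -- nL
    have h1 : (C4K.kL1 x : ℝ) ≤ x := by
      refine hL1a.trans ?_
      calc x ^ (0.003 : ℝ) ≤ x ^ (1 : ℝ) := pmono (by norm_num)
        _ = x := p1
    rw [hx] at h1
    exact_mod_cast h1
  · -- nM
    calc 4 * (C4K.kL1 x : ℝ) ≤ x ^ (0.00005 : ℝ) * x ^ (0.003 : ℝ) :=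
          mul_le_mul x7 hL1a (Nat.cast_nonneg _) (ppos _).le
      _ = x ^ (0.00305 : ℝ) := by rw [padd]; norm_num
      _ ≤ x ^ (0.539 : ℝ) := pmono (by norm_num)

end Pool.Agent.C4N.H91
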