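import Pool.Agent.Helper91_C4N.MrkC
import Pool.Agent.Helper91_C4N.MrkN

/-!
# MRK: the marks
-/

set_option autoImplicit false

open scoped BigOperators Classical

noncomputable section

namespace Pool.Agent.C4N.H91

open Finset
open Pool.Agent.C4K (PInj it)
open Pool.Agent.LAG (near Big)
open Pool.Agent.Helper13_Conc (mean)
open Pool.Agent.C4W (outN inN)

section edges

variable {V : Type} [Fintype V] {K : ℕ}

lemma Er_filter (s : ℕ) (η : Sym2 V → Fin K) (T : Finset (Fin K)) (hT : ∀ t, t ∈ T ↔ t.1 < s)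
    (P : V → V → Prop) :
    (Er P).filter (fun e => η e ∈ T) = Er fun x y => P x y ∧ mkd s η x y := by
  ext e
  rw [mem_filter, mem_Er, mem_Er]
  constructor
  · rintro ⟨⟨x, y, rfl, h⟩, h2⟩
    exact ⟨x, y, rfl, h, (hT _).mp h2⟩
  · rintro ⟨x, y, rfl, h, h2⟩
    exact ⟨⟨x, y, rfl, h⟩, (hT _).mpr h2⟩

lemma Er_arc {O : V → V → Prop} (asy : ∀ x y, O x y → ¬ O y x) {f : V → Option V}
    (hf : ∀ x y, f x = some y → O x y) (Q : V → V → Prop) (A : Finset V)
    (hA : ∀ x, x ∈ A ↔ ∃ y, f x = some y ∧ Q x y) :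
    A.card = (Er fun x y => f x = some y ∧ Q x y).card :=
  card_arc asy hf Q A _ hA fun _ => mem_Er

lemma Er_star (v : V) (Q : V → Prop) :
    {y | Q y}.ncard = (Er fun x y => x = v ∧ Q y).card := by
  rw [ncard_filter]
  refine card_star v Q _ _ (fun y => by simp only [mem_filter, mem_univ, true_and]) fun e => ?_
  rw [mem_Er]
  constructor
  · rintro ⟨x, y, rfl, rfl, h⟩
    exact ⟨y, rfl, h⟩
  · rintro ⟨y, rfl, h⟩
    exact ⟨v, y, rfl, rfl, h⟩

lemma Er_congr {P Q : V → V → Prop} (h : ∀ x y, P x y ↔ Q x y) : Er P = Er Q := by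
  ext e
  simp only [mem_Er, h]

end edges

lemma card_biUnion_real {ι Ω : Type} [DecidableEq Ω] (J : Finset ι) (B : ι → Finset Ω) (b : ℝ)
    (h : ∀ i ∈ J, ((B i).card : ℝ) ≤ b) : ((J.biUnion B).card : ℝ) ≤ J.card * b := by
  have h1 : ((J.biUnion B).card : ℝ) ≤ ∑ i ∈ J, ((B i).card : ℝ) := by
    exact_mod_cast card_biUnion_le
  refine h1.trans ?_
  rw [← nsmul_eq_mul]
  exact sum_le_card_nsmul J _ b h

lemma dev_num {K n s : ℕ} {cnt F t ε q k48 C : ℝ} (hq : q = (s : ℝ) / K)
    (hq0 : 0 ≤ q) (hε : 0 ≤ ε) (h48 : 0 ≤ k48) (hC : 0 ≤ C)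
    (h1 : |cnt - F * q| < t) (h2 : (K : ℝ) - n - k48 ≤ F) (h3 : F ≤ (K : ℝ) - n + C + 1)
    (h4 : t + (k48 + C + 1) * q ≤ ε * (11 * s * s / K)) (h5 : (n : ℝ) + 11 * s ≤ K) :
    (1 - ε) * (((K : ℝ) - n) * s / K) ≤ cnt ∧ cnt ≤ (1 + ε) * (((K : ℝ) - n) * s / K) := by
  have e1 : ((K : ℝ) - n) * s / K = ((K : ℝ) - n) * q := by rw [hq]; ring
  have e2 : (11 * (s : ℝ) * s / K) = 11 * s * q := by rw [hq]; ring
  rw [e1]
  rw [e2] at h4
  have h6 : ε * (11 * s * q) ≤ ε * (((K : ℝ) - n) * q) := by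
    apply mul_le_mul_of_nonneg_left _ hε
    apply mul_le_mul_of_nonneg_right _ hq0
    linarith
  rw [abs_lt] at h1
  have h7 : ((K : ℝ) - n - k48) * q ≤ F * q := mul_le_mul_of_nonneg_right h2 hq0
  have h8 : F * q ≤ ((K : ℝ) - n + C + 1) * q := mul_le_mul_of_nonneg_right h3 hq0
  have h9 : 0 ≤ k48 * q := mul_nonneg h48 hq0
  have h10 : 0 ≤ (C + 1) * q := mul_nonneg (by linarith) hq0
  constructor <;> nlinarith [h1.1, h1.2]

/-- the local lemma without instances -/
lemma llb' (llb : LLBStmt) {E α ι : Type} [Fintype E] [Fintype α] [Nonempty α] [Fintype ι]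
    (B : ι → Finset (E → α)) (W : ι → Finset E) (D : ℕ) (hD : 1 ≤ D)
    (hdep : ∀ i (ω ω' : E → α), (∀ e ∈ W i, ω e = ω' e) → ω ∈ B i → ω' ∈ B i)
    (hW : ∀ i, (W i).card ≤ D) (hE : ∀ e, ∀ X : Finset ι, (∀ j ∈ X, e ∈ W j) → X.card ≤ D)
    (hB : ∀ i, ((B i).card : ℝ) * (16 * (D : ℝ) ^ 2) ≤ Nat.card (E → α)) :
    ∃ ω, ∀ i, ω ∉ B i := by
  refine llb E α ι B W D hD hdep hW (fun e => hE e _ fun j hj => (mem_filter.mp hj).2)
    (fun i => ?_)
  rw [← Nat.card_eq_fintype_card]
  exact hB i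

/-- MRK. -/
theorem mrk (llb : LLBStmt) (ebl : EBLStmt) (edc : EDCStmt) (trk : TRKStmt) : MRKStmt := by
  intro C L c c2 hc hc' hc2 hc2'
  obtain ⟨C1, hnum⟩ := num C L c2 hc2 hc2'
  refine ⟨C1, fun δ hδ => ?_⟩
  obtain ⟨m, hnum⟩ := hnum δ hδ
  obtain ⟨DT, hDT, htrk⟩ := trk L m
  obtain ⟨K0, hnum⟩ := hnum DT hDT
  refine ⟨K0, ?_⟩
  intro K M k s hK prm A Q hA hQ V _ R E O ω mg n f Z S Zc hc4 hdeg hER hEd hO bo hn1 hn2
    hcnt hS hSg
  have nm := hnum K k s hK prm.hk prm.hs
  have hne : Nonempty (Fin K) := ⟨⟨0, nm.K1⟩⟩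
  have hK0 : (0 : ℝ) < K := by exact_mod_cast nm.K1
  have hk0 : (0 : ℝ) < k := by
    have : 1 ≤ k := by have := prm.hk; have := nm.K1; omega
    exact_mod_cast this
  have hs0 : (0 : ℝ) < s := by exact_mod_cast nm.s0
  have hnK : n ≤ K := by omega
  obtain ⟨T, hT⟩ : ∃ T : Finset (Fin K), ∀ t, t ∈ T ↔ t.1 < s :=
    ⟨univ.filter fun t => t.1 < s, fun t => by simp⟩
  have hTc : T.card = s := by
    have : T = (univ : Finset (Fin s)).map (Fin.castLEEmb nm.sK) := by
      ext t
      simp only [hT, mem_map, mem_univ, true_and, Fin.castLEEmb_apply]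
      constructor
      · intro h
        exact ⟨⟨t.1, h⟩, rfl⟩
      · rintro ⟨u, rfl⟩
        exact u.2
    rw [this, card_map, card_univ, Fintype.card_fin]
  have hp : (T.card : ℝ) / Fintype.card (Fin K) = (s : ℝ) / K := by
    rw [hTc, Fintype.card_fin]
  have hq0 : 0 ≤ (s : ℝ) / K := by positivity
  have hq1 : (s : ℝ) / K ≤ 1 := by
    rw [div_le_one hK0]
    exact_mod_cast nm.sK
  obtain ⟨b1, b2, b3⟩ := ebl V R (2 * K + C) (L + 2) (fun v => (hdeg v).2)
  obtain ⟨b1', -, -⟩ := ebl V R (2 * K + C) L (fun v => (hdeg v).2)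
  -- the parameters
  set D : ℕ := (2 * K + C + 1) ^ (L + 4) with hD
  set τ : ℝ := 1 / (160 * (((2 * K + C + 1 : ℕ) : ℝ) ^ (L + 4)) ^ 2) with hτ
  set N : ℝ := (Nat.card (Sym2 V → Fin K) : ℝ) with hN
  have hNpos : 0 < N := by
    rw [hN]
    exact_mod_cast Nat.card_pos
  have hDr : (D : ℝ) = ((2 * K + C + 1 : ℕ) : ℝ) ^ (L + 4) := by rw [hD]; push_cast; ring
  have hDpos : (0 : ℝ) < D := by rw [hDr]; positivity
  have hτD : 160 * ((D : ℝ) ^ 2) * τ = 1 := by
    rw [hτ, ← hDr]
    field_simp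
  have hτ0 : 0 < τ := by rw [hτ]; positivity
  have hfO : ∀ i x y, f i x = some y → O x y := fun i x y h => arc_O bo i x y h
  have hOR : ∀ x y, O x y → R.Adj x y := fun x y h => (hO.adj x y).mpr (Or.inl h)
  -- the sets of edges
  set Ea : Fin n → V → Finset (Sym2 V) := fun i x =>
    Er fun x' y => f i x' = some y ∧ pool (Og O s ω) f x y with hEa
  set Eb : Fin n → V → Finset (Sym2 V) := fun i v =>
    Er fun x y => f i x = some y ∧ pool (Og O s ω) f x v with hEb
  set Ed : V → Finset (Sym2 V) := fun v => Er fun x y => x = v ∧ R.Adj v y with hEd'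
  set Es : V → Finset (Sym2 V) := fun v => Er fun x y => x = v ∧ (R.Adj v y ∧ y ∈ S) with hEs
  set Eg : V → Finset (Sym2 V) := fun v => Er fun x y => x = v ∧ E.Adj v y with hEg
  set Eh : V → Finset (Sym2 V) := fun v => Er fun y z => R.Adj v y ∧ E.Adj y z with hEh
  set Y : Fin n → V → Finset V := fun i v => univ.filter fun y =>
    (pool (Og O s ω) f v y ∨ pool (Og O s ω) f y v) ∧ full (f i) y with hY
  set JA : Fin n → V → Finset (V × V) := fun i y => univ.filter fun q =>
    (q.1 ∈ S ∧ ∃ g, (y, q.1) ∈ Og O s ω g ∨ (q.1, y) ∈ Og O s ω g) ∧ nbr (f i) q.1 q.2 ∧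
      full (f i) q.2 with hJA
  set JB : Fin n → V → Finset (V × V) := fun i y => univ.filter fun q =>
    (q.1 ∈ S ∧ R.Adj y q.1) ∧ nbr (f i) q.1 q.2 ∧ full (f i) q.2 ∧ q.2 ≠ y with hJB
  have near0 : ∀ v, near R (L + 2) v v := fun v => ⟨SimpleGraph.Walk.nil, by simp⟩
  have near1 : ∀ v x, R.Adj v x → near R (L + 2) v x := fun v x h =>
    ⟨SimpleGraph.Walk.cons h SimpleGraph.Walk.nil, by simp⟩
  have near2 : ∀ v x y, R.Adj v x → R.Adj x y → near R (L + 2) v y := fun v x y h h' =>
    ⟨SimpleGraph.Walk.cons h (SimpleGraph.Walk.cons h' SimpleGraph.Walk.nil), by simp⟩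
  have fbW : ∀ i v z, near R (L + 2) v z → Fb (f i) z ⊆ Wv R (L + 2) v := by
    intro i v z hz e he
    obtain ⟨a, b, rfl, h, h' | h'⟩ := mem_Er.mp he
    · subst h'
      simp only [Wv, mem_filter, mem_univ, true_and]
      exact ⟨a, b, rfl, hOR _ _ (hfO i a b h), hz⟩
    · subst h'
      simp only [Wv, mem_filter, mem_univ, true_and]
      exact ⟨b, a, Sym2.eq_swap, (hOR _ _ (hfO i a b h)).symm, hz⟩
  have poolR : ∀ v y, (pool (Og O s ω) f v y ∨ pool (Og O s ω) f y v) → R.Adj v y := by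
    rintro v y (h | h)
    · exact hOR _ _ ((pool_iff bo v y).mp h).1
    · exact (hOR _ _ ((pool_iff bo y v).mp h).1).symm
  have OgR : ∀ y v, (∃ g, (y, v) ∈ Og O s ω g ∨ (v, y) ∈ Og O s ω g) → R.Adj y v := by
    rintro y v ⟨g, h | h⟩
    · exact hOR _ _ h.1
    · exact (hOR _ _ h.1).symm
  have nbrR : ∀ i v z, nbr (f i) v z → R.Adj v z := by
    rintro i v z (h | h)
    · exact hOR _ _ (hfO i _ _ h)
    · exact (hOR _ _ (hfO i _ _ h)).symm
  have sEh : ∀ v, Eh v ⊆ Wv R (L + 2) v := by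
    intro v e he
    obtain ⟨y, z, rfl, h1, h2⟩ := mem_Er.mp he
    simp only [Wv, mem_filter, mem_univ, true_and]
    exact ⟨y, z, rfl, hER h2, near1 _ _ h1⟩
  have sY : ∀ i v, ∀ y ∈ Y i v, Fb (f i) y ⊆ Wv R (L + 2) v := by
    intro i v y hy
    exact fbW i v y (near1 _ _ (poolR _ _ (mem_filter.mp hy).2.1))
  have sJA : ∀ i y, ∀ q ∈ JA i y, Fb (f i) q.2 ⊆ Wv R (L + 2) y := by
    intro i y q hq
    obtain ⟨⟨_, h1⟩, h2, _⟩ := (mem_filter.mp hq).2
    exact fbW i y q.2 (near2 _ _ _ (OgR _ _ h1) (nbrR i _ _ h2))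
  have sJB : ∀ i y, ∀ q ∈ JB i y, insert s(y, q.1) (Fb (f i) q.2) ⊆ Wv R (L + 2) y := by
    intro i y q hq
    obtain ⟨⟨_, h1⟩, h2, _⟩ := (mem_filter.mp hq).2
    intro e he
    rw [mem_insert] at he
    rcases he with rfl | he
    · simp only [Wv, mem_filter, mem_univ, true_and]
      exact ⟨y, q.1, rfl, h1, near0 _⟩
    · exact fbW i y q.2 (near2 _ _ _ h1 (nbrR i _ _ h2)) he
  have sEa : ∀ i v, Ea i v ⊆ Wv R (L + 2) v := by
    intro i v e he
    obtain ⟨x, y, rfl, h1, h2⟩ := mem_Er.mp he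
    simp only [Wv, mem_filter, mem_univ, true_and]
    exact ⟨y, x, Sym2.eq_swap, (hOR _ _ (hfO i x y h1)).symm,
      near1 _ _ (hOR _ _ ((pool_iff bo v y).mp h2).1)⟩
  have sEb : ∀ i v, Eb i v ⊆ Wv R (L + 2) v := by
    intro i v e he
    obtain ⟨x, y, rfl, h1, h2⟩ := mem_Er.mp he
    simp only [Wv, mem_filter, mem_univ, true_and]
    exact ⟨x, y, rfl, hOR _ _ (hfO i x y h1),
      near1 _ _ (hOR _ _ ((pool_iff bo x v).mp h2).1).symm⟩
  have sEd : ∀ v, Ed v ⊆ Wv R (L + 2) v := by
    intro v e he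
    obtain ⟨x, y, rfl, rfl, h2⟩ := mem_Er.mp he
    simp only [Wv, mem_filter, mem_univ, true_and]
    exact ⟨x, y, rfl, h2, near0 _⟩
  have sEs : ∀ v, Es v ⊆ Wv R (L + 2) v := by
    intro v e he
    obtain ⟨x, y, rfl, rfl, h2⟩ := mem_Er.mp he
    simp only [Wv, mem_filter, mem_univ, true_and]
    exact ⟨x, y, rfl, h2.1, near0 _⟩
  have sEg : ∀ v, Eg v ⊆ Wv R (L + 2) v := by
    intro v e he
    obtain ⟨x, y, rfl, rfl, h2⟩ := mem_Er.mp he
    simp only [Wv, mem_filter, mem_univ, true_and]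
    exact ⟨x, y, rfl, hER h2, near0 _⟩
  -- cardinalities
  have cEa : ∀ i v, ((K : ℝ) - n - (k : ℝ) ^ (0.48 : ℝ) ≤ (Ea i v).card) ∧
      ((Ea i v).card : ℝ) ≤ (K : ℝ) - n + C + 1 := by
    intro i v
    have h := size_a bo hO hdeg i v
    have h2 := Er_arc hO.asy (hfO i) (fun _ y => pool (Og O s ω) f v y)
      (univ.filter fun x' => ∃ y, f i x' = some y ∧ pool (Og O s ω) f v y)
      (fun x => by simp only [mem_filter, mem_univ, true_and])
    rw [h2] at h
    exact h
  have cEb : ∀ i v, ((K : ℝ) - n - (k : ℝ) ^ (0.48 : ℝ) ≤ (Eb i v).card) ∧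
      ((Eb i v).card : ℝ) ≤ (K : ℝ) - n + C + 1 := by
    intro i v
    have h := size_b bo hO hdeg i v
    have h2 := Er_arc hO.asy (hfO i) (fun x _ => pool (Og O s ω) f x v)
      (univ.filter fun x => ∃ y, f i x = some y ∧ pool (Og O s ω) f x v)
      (fun x => by simp only [mem_filter, mem_univ, true_and])
    rw [h2] at h
    exact h
  have hkr : (k : ℝ) = K + C := by rw [prm.hk]; push_cast; ring
  have hn1' : (n : ℝ) + 11 * s ≤ K := by exact_mod_cast hn1
  have cEk : ∀ (i : Fin n) (z : ℝ), z ≤ (K : ℝ) - n + C + 1 → z ≤ (k : ℝ) := by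
    intro i z hz
    have h1 : 1 ≤ n := Nat.one_le_iff_ne_zero.mpr (fun h => by
      subst h
      exact i.elim0)
    have h2 : (1 : ℝ) ≤ n := by exact_mod_cast h1
    rw [hkr]
    linarith
  -- the events
  set t : ℝ := (k : ℝ) ^ (0.505 : ℝ) with ht
  have ht0 : 0 < t := Real.rpow_pos_of_pos hk0 _
  set cn : (Sym2 V → Fin K) → Finset (Sym2 V) → ℝ := fun η F =>
    ((F.filter fun e => η e ∈ T).card : ℝ) with hcn
  set BA : Fin n → V → Finset (Sym2 V → Fin K) := fun i v => univ.filter fun η =>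
    t ≤ |cn η (Ea i v) - (Ea i v).card * ((T.card : ℝ) / Fintype.card (Fin K))| with hBA
  set BB : Fin n → V → Finset (Sym2 V → Fin K) := fun i v => univ.filter fun η =>
    t ≤ |cn η (Eb i v) - (Eb i v).card * ((T.card : ℝ) / Fintype.card (Fin K))| with hBB
  set BD : V → Finset (Sym2 V → Fin K) := fun v => univ.filter fun η =>
    2 * (2 * (s : ℝ) + C) + (s : ℝ) / 2 ≤ cn η (Ed v) with hBD
  set BE : V → Finset (Sym2 V → Fin K) := fun v => univ.filter fun η =>
    2 * ((k : ℝ) ^ (1 - c2) * ((s : ℝ) / K)) + s * (k : ℝ) ^ (-(c2 / 2)) / 2 ≤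
      cn η (Es v) with hBE
  set BG : V → Finset (Sym2 V → Fin K) := fun v => univ.filter fun η =>
    C1 ≤ ((Eg v).filter fun e => η e ∈ T).card with hBG
  set Bd : ℝ := (K : ℝ) ^ δ * A ^ L with hBd
  set BF : V → ℕ × V → Finset (Sym2 V → Fin K) := fun v q => univ.filter fun η =>
    (1 ≤ q.1 ∧ q.1 ≤ L ∧ (v ≠ q.2 ∨ 3 ≤ q.1)) ∧
      Bd * max 1 ((41 * s : ℝ) ^ q.1 / Q) < npw (ind (TT R s ω η)) q.1 v q.2 with hBF
  set Qd : V → Finset (ℕ × V) := fun v => range (L + 1) ×ˢ univ.filter fun y => near R L v y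
    with hQd
  set Bv : V → Finset (Sym2 V → Fin K) := fun v =>
    (((((univ.biUnion fun i => BA i v) ∪ (univ.biUnion fun i => BB i v)) ∪ BD v) ∪ BE v) ∪ BG v) ∪
      (Qd v).biUnion (BF v) with hBv
  set t1 : ℝ := (k : ℝ) ^ (0.6 : ℝ) with ht1
  have ht10 : 0 < t1 := Real.rpow_pos_of_pos hk0 _
  set BH : V → Finset (Sym2 V → Fin K) := fun v => univ.filter fun η =>
    2 * ((2 * K + C) * (K : ℝ) ^ (1 / 50000 : ℝ) * ((s : ℝ) / K)) +
      (K : ℝ) ^ (1 - 1 / 50000 : ℝ) / 4 ≤ cn η (Eh v) with hBH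
  set cM : Fin n → V → (Sym2 V → Fin K) → Finset V := fun i v η =>
    (Y i v).filter fun y => ∀ e ∈ Fb (f i) y, η e ∈ T with hcM
  set cA : Fin n → V → (Sym2 V → Fin K) → Finset (V × V) := fun i y η =>
    (JA i y).filter fun q => ∀ e ∈ Fb (f i) q.2, η e ∈ T with hcA
  set cB : Fin n → V → (Sym2 V → Fin K) → Finset (V × V) := fun i y η =>
    (JB i y).filter fun q => ∀ e ∈ insert s(y, q.1) (Fb (f i) q.2), η e ∈ T with hcB
  set BM : Fin n → V → Finset (Sym2 V → Fin K) := fun i v => univ.filter fun η =>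
    t1 ≤ |((cM i v η).card : ℝ) - ∑ y ∈ Y i v,
      ((T.card : ℝ) / Fintype.card (Fin K)) ^ (Fb (f i) y).card| with hBM
  set BMA : Fin n → V → Finset (Sym2 V → Fin K) := fun i y => univ.filter fun η =>
    t1 ≤ |((cA i y η).card : ℝ) - ∑ q ∈ JA i y,
      ((T.card : ℝ) / Fintype.card (Fin K)) ^ (Fb (f i) q.2).card| with hBMA
  set BMB : Fin n → V → Finset (Sym2 V → Fin K) := fun i y => univ.filter fun η =>
    t1 ≤ |((cB i y η).card : ℝ) - ∑ q ∈ JB i y,
      ((T.card : ℝ) / Fintype.card (Fin K)) ^ (insert s(y, q.1) (Fb (f i) q.2)).card| with hBMB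
  set Bw : V → Finset (Sym2 V → Fin K) := fun v =>
    ((BH v ∪ (univ.biUnion fun i => BM i v)) ∪ (univ.biUnion fun i => BMA i v)) ∪
      (univ.biUnion fun i => BMB i v) with hBw
  set L1 : ℕ := C4K.kL1 k with hL1
  set Bp : Fin n × V → Finset (Sym2 V → Fin K) := fun p =>
    if ∀ j, j < L1 → it (f p.1) j p.2 ≠ none then
      univ.filter fun η => ∀ e ∈ We (f p.1) L1 p.2, η e ∉ T else ∅ with hBp
  -- the probabilities
  have pA : ∀ v, (((univ : Finset (Fin n)).biUnion fun i => BA i v).card : ℝ) ≤ τ * N := by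
    intro v
    have h1 := card_biUnion_real univ (fun i => BA i v)
      (2 * Real.exp (-(t ^ 2 / (2 * k))) * N)
      (fun i _ => edc_dev edc (Ea i v) T t k ht0 (cEk i _ (cEa i v).2) (BA i v)
        (fun η => (Ea i v).filter fun e => η e ∈ T) (fun η e => mem_filter)
        (fun η hη => (mem_filter.mp hη).2))
    rw [card_univ, Fintype.card_fin] at h1
    refine h1.trans ?_
    have h2 : (n : ℝ) ≤ K := by exact_mod_cast hnK
    have h3 := nm.na
    have h4 : 0 ≤ 2 * Real.exp (-(t ^ 2 / (2 * k))) * N := by positivity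
    calc (n : ℝ) * (2 * Real.exp (-(t ^ 2 / (2 * k))) * N)
        ≤ K * (2 * Real.exp (-(t ^ 2 / (2 * k))) * N) := mul_le_mul_of_nonneg_right h2 h4
      _ = 2 * K * Real.exp (-(t ^ 2 / (2 * k))) * N := by ring
      _ ≤ τ * N := mul_le_mul_of_nonneg_right h3 hNpos.le
  have pB : ∀ v, (((univ : Finset (Fin n)).biUnion fun i => BB i v).card : ℝ) ≤ τ * N := by
    intro v
    have h1 := card_biUnion_real univ (fun i => BB i v)
      (2 * Real.exp (-(t ^ 2 / (2 * k))) * N)
      (fun i _ => edc_dev edc (Eb i v) T t k ht0 (cEk i _ (cEb i v).2) (BB i v)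
        (fun η => (Eb i v).filter fun e => η e ∈ T) (fun η e => mem_filter)
        (fun η hη => (mem_filter.mp hη).2))
    rw [card_univ, Fintype.card_fin] at h1
    refine h1.trans ?_
    have h2 : (n : ℝ) ≤ K := by exact_mod_cast hnK
    have h3 := nm.na
    have h4 : 0 ≤ 2 * Real.exp (-(t ^ 2 / (2 * k))) * N := by positivity
    calc (n : ℝ) * (2 * Real.exp (-(t ^ 2 / (2 * k))) * N)
        ≤ K * (2 * Real.exp (-(t ^ 2 / (2 * k))) * N) := mul_le_mul_of_nonneg_right h2 h4
      _ = 2 * K * Real.exp (-(t ^ 2 / (2 * k))) * N := by ring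
      _ ≤ τ * N := mul_le_mul_of_nonneg_right h3 hNpos.le
  have pD : ∀ v, ((BD v).card : ℝ) ≤ τ * N := by
    intro v
    have h0 : ((Ed v).card : ℝ) * ((T.card : ℝ) / Fintype.card (Fin K)) ≤ 2 * (s : ℝ) + C := by
      rw [hp]
      have h1 : ((Ed v).card : ℝ) ≤ 2 * K + C := by
        have h2 : (Ed v).card = dg R v := (Er_star v fun y => R.Adj v y).symm
        rw [h2]
        exact_mod_cast (hdeg v).2
      have hC : (0 : ℝ) ≤ C := Nat.cast_nonneg C
      calc ((Ed v).card : ℝ) * ((s : ℝ) / K) ≤ (2 * K + C) * ((s : ℝ) / K) :=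
            mul_le_mul_of_nonneg_right h1 hq0
        _ = 2 * s + C * ((s : ℝ) / K) := by field_simp
        _ ≤ 2 * s + C := by nlinarith
    have h1 := edc_up edc (Ed v) T (2 * (s : ℝ) + C) ((s : ℝ) / 2) h0
      (by positivity) (BD v) (fun η => (Ed v).filter fun e => η e ∈ T) (fun η e => mem_filter)
        (fun η hη => (mem_filter.mp hη).2)
    exact h1.trans (mul_le_mul_of_nonneg_right nm.nd hNpos.le)
  have pE : ∀ v, ((BE v).card : ℝ) ≤ τ * N := by
    intro v
    have hkc : 0 < (k : ℝ) ^ (-(c2 / 2)) := Real.rpow_pos_of_pos hk0 _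
    have h0 : ((Es v).card : ℝ) * ((T.card : ℝ) / Fintype.card (Fin K)) ≤
        (k : ℝ) ^ (1 - c2) * ((s : ℝ) / K) := by
      rw [hp]
      apply mul_le_mul_of_nonneg_right _ hq0
      have h2 : (Es v).card = {u | R.Adj v u ∧ u ∈ S}.ncard :=
        (Er_star v fun y => R.Adj v y ∧ y ∈ S).symm
      rw [h2]
      exact hS v
    have h1 := edc_up edc (Es v) T ((k : ℝ) ^ (1 - c2) * ((s : ℝ) / K))
      (s * (k : ℝ) ^ (-(c2 / 2)) / 2) h0 (by positivity) (BE v)
      (fun η => (Es v).filter fun e => η e ∈ T) (fun η e => mem_filter)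
        (fun η hη => (mem_filter.mp hη).2)
    exact h1.trans (mul_le_mul_of_nonneg_right nm.ne hNpos.le)
  have pG : ∀ v, ((BG v).card : ℝ) ≤ τ * N := by
    intro v
    have h0 : ((Eg v).card : ℝ) * ((T.card : ℝ) / Fintype.card (Fin K)) ≤
        (K : ℝ) ^ (1 / 50000 : ℝ) * ((s : ℝ) / K) := by
      rw [hp]
      apply mul_le_mul_of_nonneg_right _ hq0
      have h2 : (Eg v).card = dg E v := (Er_star v fun y => E.Adj v y).symm
      rw [h2]
      exact hEd v
    have h1 := edc_pow edc (Eg v) T ((K : ℝ) ^ (1 / 50000 : ℝ) * ((s : ℝ) / K)) h0 C1 (BG v)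
      (fun η => (Eg v).filter fun e => η e ∈ T) (fun η e => mem_filter)
        (fun η hη => (mem_filter.mp hη).2)
    exact h1.trans (mul_le_mul_of_nonneg_right nm.ng hNpos.le)
  have pF : ∀ v, (((Qd v).biUnion (BF v)).card : ℝ) ≤ τ * N := by
    intro v
    have hKδ : 0 < (K : ℝ) ^ δ := Real.rpow_pos_of_pos hK0 _
    have h0 : 0 ≤ (DT / (K : ℝ) ^ δ) ^ m * N := by positivity
    have h1 := card_biUnion_real (Qd v) (BF v) ((DT / (K : ℝ) ^ δ) ^ m * N) (by
      intro q _
      by_cases hq : 1 ≤ q.1 ∧ q.1 ≤ L ∧ (v ≠ q.2 ∨ 3 ≤ q.1)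
      · exact trk_markov hDT htrk R s ω A Q δ hA hQ nm.K1 nm.s0 nm.sK hcnt q.1 v q.2 hq.1
          hq.2.1 hq.2.2 (BF v q) (fun η hη => (mem_filter.mp hη).2.2)
      · have h3 : BF v q = ∅ := by
          rw [hBF]
          rw [filter_eq_empty_iff]
          intro η _ h4
          exact hq h4.1
        rw [h3, card_empty]
        simpa using h0)
    refine h1.trans ?_
    have h2 : ((Qd v).card : ℝ) ≤ ((L : ℝ) + 1) * ((2 * K + C + 1 : ℕ) : ℝ) ^ L := by
      rw [hQd]
      rw [card_product, card_range]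
      push_cast
      have h3 := b1' v
      have h4 : ((univ.filter fun y => near R L v y).card : ℝ) ≤
          ((2 * K + C + 1 : ℕ) : ℝ) ^ L := by exact_mod_cast h3
      push_cast at h4
      exact mul_le_mul_of_nonneg_left h4 (by positivity)
    calc ((Qd v).card : ℝ) * ((DT / (K : ℝ) ^ δ) ^ m * N)
        ≤ (((L : ℝ) + 1) * ((2 * K + C + 1 : ℕ) : ℝ) ^ L) * ((DT / (K : ℝ) ^ δ) ^ m * N) :=
          mul_le_mul_of_nonneg_right h2 h0
      _ = (((L : ℝ) + 1) * ((2 * K + C + 1 : ℕ) : ℝ) ^ L * (DT / (K : ℝ) ^ δ) ^ m) * N := by ring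
      _ ≤ τ * N := mul_le_mul_of_nonneg_right nm.nf hNpos.le
  -- sizes for the new events
  have hdk : ∀ v, (dg R v : ℝ) ≤ 2 * k := by
    intro v
    have h1 := (hdeg v).2
    have h2 : dg R v ≤ 2 * k := by rw [prm.hk]; omega
    exact_mod_cast h2
  have fb2 : ∀ i z, full (f i) z → (Fb (f i) z).card = 2 := fun i z hz =>
    card_Fb hO.asy (bo.inj i) (hfO i) hz
  have fb3 : ∀ i y q, q ∈ JB i y → (insert s(y, q.1) (Fb (f i) q.2)).card = 3 := by
    intro i y q hq
    obtain ⟨⟨_, h1⟩, h2, h3, h4⟩ := (mem_filter.mp hq).2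
    rw [card_insert_of_notMem, fb2 i _ h3]
    intro h5
    have h6 := mem_of_Fb h5
    rw [Sym2.mem_iff] at h6
    rcases h6 with h6 | h6
    · exact h4 h6
    · rw [h6] at h2
      exact (nbrR i _ _ h2).ne rfl
  have cY : ∀ i v, ((Y i v).card : ℝ) ≤ 2 * k := by
    intro i v
    refine le_trans ?_ (hdk v)
    have h1 : (Y i v).card ≤ dg R v := by
      rw [dg_eq]
      apply card_le_card
      intro y hy
      simp only [mem_filter, mem_univ, true_and]
      exact poolR _ _ (mem_filter.mp hy).2.1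
    exact_mod_cast h1
  have cJA' : ∀ i y, ((JA i y).card : ℝ) ≤ 4 * k := by
    intro i y
    have h1 := card_pairs_left (bo.inj i) (univ.filter fun v => R.Adj y v) (JA i y) (by
      intro q hq
      obtain ⟨⟨_, h1⟩, h2, _⟩ := (mem_filter.mp hq).2
      exact ⟨by simpa using OgR _ _ h1, h2⟩)
    rw [← dg_eq] at h1
    have h2 : ((JA i y).card : ℝ) ≤ 2 * (dg R y : ℝ) := by exact_mod_cast h1
    linarith [hdk y]
  have cJB' : ∀ i y, ((JB i y).card : ℝ) ≤ 4 * k := by
    intro i y
    have h1 := card_pairs_left (bo.inj i) (univ.filter fun v => R.Adj y v) (JB i y) (by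
      intro q hq
      obtain ⟨⟨_, h1⟩, h2, _⟩ := (mem_filter.mp hq).2
      exact ⟨by simpa using h1, h2⟩)
    rw [← dg_eq] at h1
    have h2 : ((JB i y).card : ℝ) ≤ 2 * (dg R y : ℝ) := by exact_mod_cast h1
    linarith [hdk y]
  have pH : ∀ v, ((BH v).card : ℝ) ≤ τ * N := by
    intro v
    have h0 : ((Eh v).card : ℝ) * ((T.card : ℝ) / Fintype.card (Fin K)) ≤
        (2 * K + C) * (K : ℝ) ^ (1 / 50000 : ℝ) * ((s : ℝ) / K) := by
      rw [hp]
      apply mul_le_mul_of_nonneg_right _ hq0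
      have h1 : (Eh v).card ≤ ∑ y ∈ univ.filter (fun y => R.Adj v y), dg E y := by
        have h2 : Eh v ⊆ (univ.filter fun y => R.Adj v y).biUnion fun y =>
            (univ.filter fun z => E.Adj y z).image fun z => s(y, z) := by
          intro e he
          obtain ⟨y, z, rfl, h3, h4⟩ := mem_Er.mp he
          simp only [mem_biUnion, mem_filter, mem_univ, true_and, mem_image]
          exact ⟨y, h3, z, h4, rfl⟩
        refine (card_le_card h2).trans (card_biUnion_le.trans (sum_le_sum fun y _ => ?_))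
        rw [dg_eq]
        exact card_image_le
      have h2 : ((∑ y ∈ univ.filter (fun y => R.Adj v y), dg E y : ℕ) : ℝ) ≤
          (dg R v : ℝ) * (K : ℝ) ^ (1 / 50000 : ℝ) := by
        push_cast
        rw [dg_eq R v, ← nsmul_eq_mul]
        exact sum_le_card_nsmul _ _ _ fun y _ => hEd y
      have h3 : (dg R v : ℝ) ≤ 2 * K + C := by exact_mod_cast (hdeg v).2
      have h4 : 0 ≤ (K : ℝ) ^ (1 / 50000 : ℝ) := (Real.rpow_pos_of_pos hK0 _).le
      calc ((Eh v).card : ℝ) ≤ ((∑ y ∈ univ.filter (fun y => R.Adj v y), dg E y : ℕ) : ℝ) := by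
            exact_mod_cast h1
        _ ≤ (dg R v : ℝ) * (K : ℝ) ^ (1 / 50000 : ℝ) := h2
        _ ≤ (2 * K + C) * (K : ℝ) ^ (1 / 50000 : ℝ) := mul_le_mul_of_nonneg_right h3 h4
    have h1 := edc_up edc (Eh v) T ((2 * K + C) * (K : ℝ) ^ (1 / 50000 : ℝ) * ((s : ℝ) / K))
      ((K : ℝ) ^ (1 - 1 / 50000 : ℝ) / 4) h0 (by positivity) (BH v)
      (fun η => (Eh v).filter fun e => η e ∈ T) (fun η e => mem_filter)
        (fun η hη => (mem_filter.mp hη).2)
    exact h1.trans (mul_le_mul_of_nonneg_right nm.nh hNpos.le)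
  have h72 : (0 : ℝ) < 72 * k := by positivity
  have uK : ∀ B : Fin n → Finset (Sym2 V → Fin K),
      (∀ i, ((B i).card : ℝ) ≤ 2 * Real.exp (-(t1 ^ 2 / (2 * (72 * k)))) * N) →
      (((univ : Finset (Fin n)).biUnion B).card : ℝ) ≤ τ * N := by
    intro B hB
    have h1 := card_biUnion_real univ B _ (fun i _ => hB i)
    rw [card_univ, Fintype.card_fin] at h1
    refine h1.trans ?_
    have h2 : (n : ℝ) ≤ K := by exact_mod_cast hnK
    have h3 := nm.nm
    have h4 : 0 ≤ 2 * Real.exp (-(t1 ^ 2 / (2 * (72 * k)))) * N := by positivity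
    calc (n : ℝ) * (2 * Real.exp (-(t1 ^ 2 / (2 * (72 * k)))) * N)
        ≤ K * (2 * Real.exp (-(t1 ^ 2 / (2 * (72 * k)))) * N) := mul_le_mul_of_nonneg_right h2 h4
      _ = 2 * K * Real.exp (-(t1 ^ 2 / (2 * (72 * k)))) * N := by ring
      _ ≤ τ * N := mul_le_mul_of_nonneg_right h3 hNpos.le
  have pM : ∀ v, (((univ : Finset (Fin n)).biUnion fun i => BM i v).card : ℝ) ≤ τ * N := by
    intro v
    refine uK _ fun i => ?_
    refine mk_dev (Y i v) (fun y => Fb (f i) y) T 2 ?_ ?_ (72 * k) h72 ?_ t1 ht10.le (BM i v)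
      (cM i v) (fun η y => mem_filter) (fun η hη => (mem_filter.mp hη).2)
    · intro e X _ hX
      exact card_mem_le e X fun y hy => mem_of_Fb (hX y hy)
    · intro y hy
      rw [fb2 i y (mem_filter.mp hy).2.2]
      omega
    · have := cY i v
      push_cast
      linarith
  have pMA : ∀ v, (((univ : Finset (Fin n)).biUnion fun i => BMA i v).card : ℝ) ≤ τ * N := by
    intro v
    refine uK _ fun i => ?_
    refine mk_dev (JA i v) (fun q => Fb (f i) q.2) T 4 ?_ ?_ (72 * k) h72 ?_ t1 ht10.le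
      (BMA i v) (cA i v) (fun η y => mem_filter) (fun η hη => (mem_filter.mp hη).2)
    · intro e X hXJ hX
      exact card_pairs_edge (bo.inj i) e X fun q hq =>
        ⟨hX q hq, (mem_filter.mp (hXJ hq)).2.2.1⟩
    · intro q hq
      rw [fb2 i q.2 (mem_filter.mp hq).2.2.2]
      omega
    · have := cJA' i v
      push_cast
      linarith
  have pMB : ∀ v, (((univ : Finset (Fin n)).biUnion fun i => BMB i v).card : ℝ) ≤ τ * N := by
    intro v
    refine uK _ fun i => ?_
    refine mk_dev (JB i v) (fun q => insert s(v, q.1) (Fb (f i) q.2)) T 6 ?_ ?_ (72 * k) h72 ?_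
      t1 ht10.le (BMB i v) (cB i v) (fun η y => mem_filter) (fun η hη => (mem_filter.mp hη).2)
    · intro e X hXJ hX
      exact card_pairs_edge' (bo.inj i) v e X fun q hq =>
        ⟨hX q hq, (mem_filter.mp (hXJ hq)).2.2.1⟩
    · intro q hq
      rw [fb3 i v q hq]
    · have := cJB' i v
      push_cast
      linarith
  have pv : ∀ v, ((Bv v ∪ Bw v).card : ℝ) ≤ 10 * (τ * N) := by
    intro v
    have u : ∀ (X Y : Finset (Sym2 V → Fin K)) (x y : ℝ), (X.card : ℝ) ≤ x → (Y.card : ℝ) ≤ y →
        ((X ∪ Y).card : ℝ) ≤ x + y := by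
      intro X Y x y hX hY
      have : ((X ∪ Y).card : ℝ) ≤ X.card + Y.card := by exact_mod_cast card_union_le X Y
      linarith
    have h := u _ _ _ _ (u _ _ _ _ (u _ _ _ _ (u _ _ _ _ (u _ _ _ _ (u _ _ _ _
      (pA v) (pB v)) (pD v)) (pE v)) (pG v)) (pF v))
      (u _ _ _ _ (u _ _ _ _ (u _ _ _ _ (pH v) (pM v)) (pMA v)) (pMB v))
    refine h.trans (le_of_eq ?_)
    ring
  have hlen : ∀ i x j, 1 ≤ j → it (f i) j x = some x → L1 ≤ j := by
    intro i x j hj h
    have h1 := bo.len i x j hj h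
    have h2 := nm.nM
    have h3 := prm.Mlo
    have h4 : (4 * L1 : ℝ) ≤ M := h2.trans h3
    have h5 : 4 * L1 ≤ M := by exact_mod_cast h4
    omega
  have pp : ∀ p, ((Bp p).card : ℝ) ≤ τ * N := by
    rintro ⟨i, u⟩
    by_cases hu : ∀ j, j < L1 → it (f i) j u ≠ none
    · have h1 : ∀ η ∈ Bp (i, u), ∀ e ∈ We (f i) L1 u, η e ∉ T := by
        intro η hη
        simp only [hBp] at hη
        rw [if_pos hu] at hη
        exact (mem_filter.mp hη).2
      have h2 := card_avoid (We (f i) L1 u) T (Bp (i, u)) h1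
      refine h2.trans ?_
      rw [hp]
      have h3 := le_card_We (bo.inj i) (hlen i) u hu
      have h4 : ((L1 - 1 : ℕ) : ℝ) ≤ (We (f i) L1 u).card := by exact_mod_cast h3
      have h5 : Real.exp (-((We (f i) L1 u).card * ((s : ℝ) / K))) ≤ τ := by
        refine le_trans (Real.exp_le_exp.mpr (neg_le_neg ?_)) nm.nc
        exact mul_le_mul_of_nonneg_right h4 hq0
      exact mul_le_mul_of_nonneg_right h5 hNpos.le
    · have h1 : Bp (i, u) = ∅ := by
        rw [hBp]
        exact if_neg hu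
      rw [h1, card_empty]
      simp only [Nat.cast_zero]
      positivity
  -- the local lemma
  have hx1 : 1 ≤ 2 * K + C + 1 := by omega
  have hL1k : L1 ≤ 2 * K + C + 1 := by
    have h1 := nm.nL
    have h2 := prm.hk
    have h3 : L1 ≤ k := h1
    omega
  have hpw : ∀ a b : ℕ, a ≤ b → (2 * K + C + 1) ^ a ≤ (2 * K + C + 1) ^ b := fun a b h =>
    Nat.pow_le_pow_right hx1 h
  have hL1D : L1 ≤ D := by
    have := hpw 1 (L + 4) (by omega)
    rw [pow_one] at this
    omega
  obtain ⟨η, hη⟩ := llb' llb (Sum.elim (fun v => Bv v ∪ Bw v) Bp)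
    (Sum.elim (Wv R (L + 2)) fun p => We (f p.1) L1 p.2) D
    (by rw [hD]; exact Nat.one_le_pow _ _ (by omega))
    (by
      intro j η η' h hη
      rcases j with v | p
      · simp only [Sum.elim_inl] at h hη ⊢
        have hc : ∀ F ⊆ Wv R (L + 2) v, (F.filter fun e => η e ∈ T) =
            F.filter fun e => η' e ∈ T := by
          intro F hF
          refine filter_congr fun e he => ?_
          rw [h e (hF he)]
        have hc' : ∀ F ⊆ Wv R (L + 2) v, cn η F = cn η' F := by
          intro F hF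
          simp only [hcn]
          rw [hc F hF]
        have hcc : ∀ {ι' : Type} (J : Finset ι') (F : ι' → Finset (Sym2 V)),
            (∀ j ∈ J, F j ⊆ Wv R (L + 2) v) →
            (J.filter fun j => ∀ e ∈ F j, η e ∈ T) = J.filter fun j => ∀ e ∈ F j, η' e ∈ T := by
          intro ι' J F hF
          refine filter_congr fun j hj => ?_
          refine forall_congr' fun e => ?_
          refine forall_congr' fun he => ?_
          rw [h e (hF j hj he)]
        rw [mem_union] at hη ⊢
        rcases hη with hη | hη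
        swap
        · refine Or.inr ?_
          simp only [hBw, mem_union, mem_biUnion, mem_univ, true_and] at hη ⊢
          rcases hη with ((hi | ⟨i, hi⟩) | ⟨i, hi⟩) | ⟨i, hi⟩
          · refine Or.inl (Or.inl (Or.inl ?_))
            simp only [hBH, mem_filter, mem_univ, true_and] at hi ⊢
            rwa [← hc' _ (sEh v)]
          · refine Or.inl (Or.inl (Or.inr ⟨i, ?_⟩))
            simp only [hBM, mem_filter, mem_univ, true_and] at hi ⊢
            have h5 : cM i v η = cM i v η' := hcc (Y i v) (fun y => Fb (f i) y) (sY i v)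
            rwa [← h5]
          · refine Or.inl (Or.inr ⟨i, ?_⟩)
            simp only [hBMA, mem_filter, mem_univ, true_and] at hi ⊢
            have h5 : cA i v η = cA i v η' := hcc (JA i v) (fun q => Fb (f i) q.2) (sJA i v)
            rwa [← h5]
          · refine Or.inr ⟨i, ?_⟩
            simp only [hBMB, mem_filter, mem_univ, true_and] at hi ⊢
            have h5 : cB i v η = cB i v η' :=
              hcc (JB i v) (fun q => insert s(v, q.1) (Fb (f i) q.2)) (sJB i v)
            rwa [← h5]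
        refine Or.inl ?_
        simp only [hBv, mem_union, mem_biUnion, mem_univ, true_and] at hη ⊢
        rcases hη with ((((⟨i, hi⟩ | ⟨i, hi⟩) | hi) | hi) | hi) | ⟨q, hq, hi⟩
        · refine Or.inl (Or.inl (Or.inl (Or.inl (Or.inl ⟨i, ?_⟩))))
          simp only [hBA, mem_filter, mem_univ, true_and] at hi ⊢
          rwa [← hc' _ (sEa i v)]
        · refine Or.inl (Or.inl (Or.inl (Or.inl (Or.inr ⟨i, ?_⟩))))
          simp only [hBB, mem_filter, mem_univ, true_and] at hi ⊢
          rwa [← hc' _ (sEb i v)]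
        · refine Or.inl (Or.inl (Or.inl (Or.inr ?_)))
          simp only [hBD, mem_filter, mem_univ, true_and] at hi ⊢
          rwa [← hc' _ (sEd v)]
        · refine Or.inl (Or.inl (Or.inr ?_))
          simp only [hBE, mem_filter, mem_univ, true_and] at hi ⊢
          rwa [← hc' _ (sEs v)]
        · refine Or.inl (Or.inr ?_)
          simp only [hBG, mem_filter, mem_univ, true_and] at hi ⊢
          rwa [← hc _ (sEg v)]
        · refine Or.inr ⟨q, hq, ?_⟩
          simp only [hBF, mem_filter, mem_univ, true_and] at hi ⊢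
          refine ⟨hi.1, ?_⟩
          rw [← npw_dep R s ω (by omega : L ≤ L + 2) v η η' h q.1 hi.1.2.1 q.2]
          exact hi.2
      · simp only [Sum.elim_inr] at h hη ⊢
        simp only [hBp] at hη ⊢
        by_cases hu : ∀ j, j < L1 → it (f p.1) j p.2 ≠ none
        · rw [if_pos hu] at hη ⊢
          simp only [mem_filter, mem_univ, true_and] at hη ⊢
          intro e he
          rw [← h e he]
          exact hη e he
        · rw [if_neg hu] at hη
          exact absurd hη (notMem_empty _))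
    (by
      intro j
      rcases j with v | p
      · simp only [Sum.elim_inl]
        exact (b2 v).trans (hpw _ _ (by omega))
      · simp only [Sum.elim_inr]
        exact (card_We_le _ _ _).trans hL1D)
    (by
      intro e
      have h2 : ∀ X : Finset V, (∀ v ∈ X, e ∈ Wv R (L + 2) v) →
          X.card ≤ 2 * (2 * K + C + 1) ^ (L + 2) := by
        intro X hX
        refine le_trans (card_le_card ?_) (b3 e)
        intro v hv
        have h4 := hX v hv
        simp only [Wv, mem_filter, mem_univ, true_and] at h4 ⊢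
        exact h4
      have h3 := card_We_edge hO.asy f bo.inj hfO bo.dis L1 e
      have h1 : ∀ X : Finset (V ⊕ (Fin n × V)), (∀ j ∈ X,
          e ∈ (Sum.elim (Wv R (L + 2)) fun p => We (f p.1) L1 p.2 : V ⊕ (Fin n × V) →
            Finset (Sym2 V)) j) → X.card ≤ 2 * (2 * K + C + 1) ^ (L + 2) + L1 := by
        intro X hX
        rw [← card_toLeft_add_card_toRight]
        refine add_le_add (h2 _ fun v hv => ?_) (h3 _ fun p hp => ?_)
        · have := hX _ (mem_toLeft.mp hv)
          simpa using this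
        · have := hX _ (mem_toRight.mp hp)
          simpa using this
      intro X hX
      refine (h1 X hX).trans ?_
      have h4 : (2 * K + C + 1) ≤ (2 * K + C + 1) ^ (L + 2) := by
        have := hpw 1 (L + 2) (by omega)
        rwa [pow_one] at this
      have h5 : D = (2 * K + C + 1) ^ (L + 2) * (2 * K + C + 1) ^ 2 := by
        rw [hD, ← pow_add]
      have h6 : 3 ≤ (2 * K + C + 1) ^ 2 := by
        have h7 : 3 ≤ 2 * K + C + 1 := by have := nm.K1; omega
        nlinarith
      have h7 : 3 * (2 * K + C + 1) ^ (L + 2) ≤ D := by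
        rw [h5, mul_comm 3]
        exact Nat.mul_le_mul_left _ h6
      omega)
    (by
      intro j
      rcases j with v | p
      · simp only [Sum.elim_inl]
        calc ((Bv v ∪ Bw v).card : ℝ) * (16 * (D : ℝ) ^ 2) ≤
              (10 * (τ * N)) * (16 * (D : ℝ) ^ 2) :=
              mul_le_mul_of_nonneg_right (pv v) (by positivity)
          _ = (160 * (D : ℝ) ^ 2 * τ) * N := by ring
          _ = N := by rw [hτD, one_mul]
      · simp only [Sum.elim_inr]
        calc ((Bp p).card : ℝ) * (16 * (D : ℝ) ^ 2) ≤ (τ * N) * (16 * (D : ℝ) ^ 2) :=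
              mul_le_mul_of_nonneg_right (pp p) (by positivity)
          _ = ((160 * (D : ℝ) ^ 2 * τ) * N) / 10 := by ring
          _ ≤ N := by rw [hτD, one_mul]; linarith)
  -- the conclusions
  have hv : ∀ v, η ∉ Bv v := fun v h => hη (Sum.inl v) (mem_union_left _ h)
  have hw : ∀ v, η ∉ Bw v := fun v h => hη (Sum.inl v) (mem_union_right _ h)
  have hpn : ∀ p, η ∉ Bp p := fun p => hη (Sum.inr p)
  have gA : ∀ i v, |cn η (Ea i v) - (Ea i v).card * ((s : ℝ) / K)| < t := by
    intro i v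
    by_contra h
    push Not at h
    apply hv v
    simp only [hBv, mem_union, mem_biUnion, mem_univ, true_and]
    refine Or.inl (Or.inl (Or.inl (Or.inl (Or.inl ⟨i, ?_⟩))))
    simp only [hBA, mem_filter, mem_univ, true_and]
    rw [hp]
    exact h
  have gB : ∀ i v, |cn η (Eb i v) - (Eb i v).card * ((s : ℝ) / K)| < t := by
    intro i v
    by_contra h
    push Not at h
    apply hv v
    simp only [hBv, mem_union, mem_biUnion, mem_univ, true_and]
    refine Or.inl (Or.inl (Or.inl (Or.inl (Or.inr ⟨i, ?_⟩))))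
    simp only [hBB, mem_filter, mem_univ, true_and]
    rw [hp]
    exact h
  have hC0 : (0 : ℝ) ≤ C := Nat.cast_nonneg C
  have h48 : 0 ≤ (k : ℝ) ^ (0.48 : ℝ) := (Real.rpow_pos_of_pos hk0 _).le
  have hε : 0 ≤ (k : ℝ) ^ (-0.48 : ℝ) := (Real.rpow_pos_of_pos hk0 _).le
  have gM : ∀ i v, |((cM i v η).card : ℝ) - ∑ y ∈ Y i v, ((s : ℝ) / K) ^ (Fb (f i) y).card| <
      t1 := by
    intro i v
    by_contra h
    push Not at h
    apply hw v
    simp only [hBw, mem_union, mem_biUnion, mem_univ, true_and]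
    refine Or.inl (Or.inl (Or.inr ⟨i, ?_⟩))
    simp only [hBM, mem_filter, mem_univ, true_and]
    rw [hp]
    exact h
  have gMA : ∀ i v, |((cA i v η).card : ℝ) -
      ∑ q ∈ JA i v, ((s : ℝ) / K) ^ (Fb (f i) q.2).card| < t1 := by
    intro i v
    by_contra h
    push Not at h
    apply hw v
    simp only [hBw, mem_union, mem_biUnion, mem_univ, true_and]
    refine Or.inl (Or.inr ⟨i, ?_⟩)
    simp only [hBMA, mem_filter, mem_univ, true_and]
    rw [hp]
    exact h
  have gMB : ∀ i v, |((cB i v η).card : ℝ) -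
      ∑ q ∈ JB i v, ((s : ℝ) / K) ^ (insert s(v, q.1) (Fb (f i) q.2)).card| < t1 := by
    intro i v
    by_contra h
    push Not at h
    apply hw v
    simp only [hBw, mem_union, mem_biUnion, mem_univ, true_and]
    refine Or.inr ⟨i, ?_⟩
    simp only [hBMB, mem_filter, mem_univ, true_and]
    rw [hp]
    exact h
  have hpos2 : 0 ≤ ((s : ℝ) / K) ^ 2 := by positivity
  refine ⟨η, ?_, ?_, ?_, ?_, ?_, ?_, ?_, ?_, ?_, ?_⟩
  · intro i x hx
    have h1 := Er_arc hO.asy (hfO i) (fun x' y => pool (Og O s ω) f x y ∧ mkd s η x' y)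
      (univ.filter fun x' =>
          C4K.Cl.gam ⟨R.Adj, pool (Og O s ω) f, f i, Mk s η f i⟩ x x')
      (fun x' => by
        simp only [mem_filter, mem_univ, true_and, C4K.Cl.gam]
        constructor
        · rintro ⟨-, ⟨y, h1, h2⟩, y', h3, h4⟩
          have : y = y' := Option.some_injective _ (h1.symm.trans h3)
          subst this
          exact ⟨y, h1, h4, h2⟩
        · rintro ⟨y, h1, h2, h3⟩
          exact ⟨hx, ⟨y, h1, h3⟩, y, h1, h2⟩)
    have h2 : cn η (Ea i x) = ((univ.filter fun x' =>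
          C4K.Cl.gam ⟨R.Adj, pool (Og O s ω) f, f i, Mk s η f i⟩ x x').card : ℝ) := by
      rw [h1]
      simp only [hcn, hEa]
      rw [Er_filter s η T hT]
      congr 2
      exact Er_congr fun x y => and_assoc
    rw [← h2]
    exact dev_num rfl hq0 hε h48 hC0 (gA i x) (cEa i x).1 (cEa i x).2 nm.na' hn1'
  · intro i x' hx'
    obtain ⟨y', hy', hm'⟩ := hx'
    have h1 := Er_arc hO.asy (hfO i) (fun x y => pool (Og O s ω) f x y' ∧ mkd s η x y)
      (univ.filter fun x =>
          C4K.Cl.gam ⟨R.Adj, pool (Og O s ω) f, f i, Mk s η f i⟩ x x')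
      (fun x => by
        simp only [mem_filter, mem_univ, true_and, C4K.Cl.gam]
        constructor
        · rintro ⟨⟨y, h1, h2⟩, -, y'', h3, h4⟩
          have : y' = y'' := Option.some_injective _ (hy'.symm.trans h3)
          subst this
          exact ⟨y, h1, h4, h2⟩
        · rintro ⟨y, h1, h2, h3⟩
          exact ⟨⟨y, h1, h3⟩, ⟨y', hy', hm'⟩, y', hy', h2⟩)
    have h2 : cn η (Eb i y') = ((univ.filter fun x =>
          C4K.Cl.gam ⟨R.Adj, pool (Og O s ω) f, f i, Mk s η f i⟩ x x').card : ℝ) := by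
      rw [h1]
      simp only [hcn, hEb]
      rw [Er_filter s η T hT]
      congr 2
      exact Er_congr fun x y => and_assoc
    rw [← h2]
    exact dev_num rfl hq0 hε h48 hC0 (gB i y') (cEb i y').1 (cEb i y').2 nm.na' hn1'
  · intro i u hu
    by_contra hcon
    push Not at hcon
    apply hpn (i, u)
    have hu' : ∀ j, j < L1 → it (f i) j u ≠ none := hu
    have h1 : Bp (i, u) = univ.filter fun η : Sym2 V → Fin K =>
        ∀ e ∈ We (f i) L1 u, η e ∉ T := by
      rw [hBp]
      exact if_pos hu'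
    rw [h1]
    simp only [mem_filter, mem_univ, true_and]
    intro e he heT
    simp only [We, mem_filter, mem_univ, true_and] at he
    obtain ⟨j, x, y, hj, hx, hy, rfl⟩ := he
    exact hcon j x (by omega) hx ⟨y, hy, (hT _).mp heT⟩
  · intro x
    have h1 : cn η (Ed x) = ({y | R.Adj x y ∧ mkd s η x y}.ncard : ℝ) := by
      simp only [hcn, hEd']
      rw [Er_filter s η T hT, Er_star x fun y => R.Adj x y ∧ mkd s η x y]
      congr 2
      exact Er_congr fun a b => by
        constructor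
        · rintro ⟨⟨rfl, h1⟩, h2⟩
          exact ⟨rfl, h1, h2⟩
        · rintro ⟨rfl, h1, h2⟩
          exact ⟨⟨rfl, h1⟩, h2⟩
    rw [← h1]
    by_contra h
    push Not at h
    apply hv x
    simp only [hBv, mem_union, mem_biUnion, mem_univ, true_and]
    refine Or.inl (Or.inl (Or.inl (Or.inr ?_)))
    simp only [hBD, mem_filter, mem_univ, true_and]
    have := nm.nd'
    linarith
  · intro x
    have h1 : cn η (Es x) = ({y | R.Adj x y ∧ mkd s η x y ∧ y ∈ S}.ncard : ℝ) := by
      simp only [hcn, hEs]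
      rw [Er_filter s η T hT, Er_star x fun y => R.Adj x y ∧ mkd s η x y ∧ y ∈ S]
      congr 2
      exact Er_congr fun a b => by
        constructor
        · rintro ⟨⟨rfl, h1, h3⟩, h2⟩
          exact ⟨rfl, h1, h2, h3⟩
        · rintro ⟨rfl, h1, h2, h3⟩
          exact ⟨⟨rfl, h1, h3⟩, h2⟩
    rw [← h1]
    by_contra h
    push Not at h
    apply hv x
    simp only [hBv, mem_union, mem_biUnion, mem_univ, true_and]
    refine Or.inl (Or.inl (Or.inr ?_))
    simp only [hBE, mem_filter, mem_univ, true_and]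
    have := nm.ne'
    linarith
  · intro a x y ha haL hxy
    by_cases hny : near R L x y
    · by_contra h
      push Not at h
      apply hv x
      simp only [hBv, mem_union, mem_biUnion, mem_univ, true_and]
      refine Or.inr ⟨(a, y), ?_, ?_⟩
      · simp only [hQd, mem_product, mem_range, mem_filter, mem_univ, true_and]
        exact ⟨by omega, hny⟩
      · simp only [hBF, mem_filter, mem_univ, true_and]
        exact ⟨⟨ha, haL, hxy⟩, h⟩
    · have hTR : TT R s ω η ≤ R := fun a b h => h.1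
      rw [npw_far R (TT R s ω η) hTR x y hny a haL]
      have h1 : (0 : ℝ) < max 1 ((41 * s : ℝ) ^ a / Q) := lt_of_lt_of_le one_pos (le_max_left _ _)
      have hKδ : 0 < (K : ℝ) ^ δ := Real.rpow_pos_of_pos hK0 _
      positivity
  · intro x
    have h1 : ((Eg x).filter fun e => η e ∈ T).card = {y | E.Adj x y ∧ mkd s η x y}.ncard := by
      simp only [hEg]
      rw [Er_filter s η T hT, Er_star x fun y => E.Adj x y ∧ mkd s η x y]
      congr 1
      exact Er_congr fun a b => by
        constructor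
        · rintro ⟨⟨rfl, h1⟩, h2⟩
          exact ⟨rfl, h1, h2⟩
        · rintro ⟨rfl, h1, h2⟩
          exact ⟨⟨rfl, h1⟩, h2⟩
    rw [← h1]
    by_contra h
    push Not at h
    apply hv x
    simp only [hBv, mem_union, mem_biUnion, mem_univ, true_and]
    refine Or.inl (Or.inr ?_)
    simp only [hBG, mem_filter, mem_univ, true_and]
    exact h.le
  · -- vertices with a marked E-edge
    intro x
    have h1 : {y | R.Adj x y ∧ ∃ z, E.Adj y z ∧ mkd s η y z}.ncard ≤
        2 * ((Eh x).filter fun e => η e ∈ T).card := by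
      rw [ncard_filter]
      have h2 : (univ.filter fun y => R.Adj x y ∧ ∃ z, E.Adj y z ∧ mkd s η y z) ⊆
          ((Eh x).filter fun e => η e ∈ T).biUnion fun e => univ.filter fun y => y ∈ e := by
        intro y hy
        obtain ⟨h3, z, h4, h5⟩ := (mem_filter.mp hy).2
        simp only [mem_biUnion, mem_filter, mem_univ, true_and]
        exact ⟨s(y, z), ⟨mem_Er.mpr ⟨y, z, rfl, h3, h4⟩, (hT _).mpr h5⟩, Sym2.mem_mk_left _ _⟩
      refine (card_le_card h2).trans ?_
      rw [mul_comm]
      refine card_biUnion_le_card_mul _ _ 2 fun e _ => ?_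
      exact card_mem_le e _ fun y hy => by simpa using hy
    have h2 : cn η (Eh x) < 2 * ((2 * K + C) * (K : ℝ) ^ (1 / 50000 : ℝ) * ((s : ℝ) / K)) +
        (K : ℝ) ^ (1 - 1 / 50000 : ℝ) / 4 := by
      by_contra h
      push Not at h
      apply hw x
      simp only [hBw, mem_union, mem_biUnion, mem_univ, true_and]
      refine Or.inl (Or.inl (Or.inl ?_))
      simp only [hBH, mem_filter, mem_univ, true_and]
      exact h
    have h3 : ({y | R.Adj x y ∧ ∃ z, E.Adj y z ∧ mkd s η y z}.ncard : ℝ) ≤ 2 * cn η (Eh x) := by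
      simp only [hcn]
      exact_mod_cast h1
    have h4 := nm.nh'
    linarith
  · -- both arcs marked: many
    intro i v
    have h1 : (cM i v η).card ≤ {y | (pool (Og O s ω) f v y ∨ pool (Og O s ω) f y v) ∧
        both s η f i y}.ncard := by
      rw [ncard_filter]
      apply card_le_card
      intro y hy
      obtain ⟨h2, h3⟩ := mem_filter.mp hy
      obtain ⟨h4, h5⟩ := (mem_filter.mp h2).2
      simp only [mem_filter, mem_univ, true_and]
      exact ⟨h4, (both_iff s η T hT f i (bo.inj i) y).mpr ⟨h5, h3⟩⟩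
    have h2 : ∑ y ∈ Y i v, ((s : ℝ) / K) ^ (Fb (f i) y).card =
        (Y i v).card * ((s : ℝ) / K) ^ 2 := by
      rw [← nsmul_eq_mul, ← sum_const]
      exact sum_congr rfl fun y hy => by rw [fb2 i y (mem_filter.mp hy).2.2]
    have h3 := gM i v
    rw [h2, abs_lt] at h3
    -- the size of `Y`
    have h4 : 2 * ((K : ℝ) - n) - (k : ℝ) ^ (0.48 : ℝ) ≤ (Y i v).card := by
      have e1 := pool_card O (fun i x y => f i x = some y)
        (fun i x y y' h h' => Option.some_injective _ (h.symm.trans h'))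
        (fun i i' x y h h' => bo.dis i i' x y h h') (fun i x y h => hfO i x y h) v
        (univ.filter fun y => pool (Og O s ω) f v y) (univ.filter fun y => O v y)
        (univ.filter fun i => f i v = none)
        (fun y => by
          simp only [mem_filter, mem_univ, true_and]
          exact pool_iff bo v y)
        (fun y => by simp only [mem_filter, mem_univ, true_and])
        (fun i => by
          simp only [mem_filter, mem_univ, true_and]
          rw [Option.eq_none_iff_forall_ne_some])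
      have e2 := pool_card (fun y x => O x y) (fun i y x => f i x = some y)
        (fun i y x x' h h' => bo.inj i x x' y h h')
        (fun i i' y x h h' => bo.dis i i' x y h h') (fun i y x h => hfO i x y h) v
        (univ.filter fun x => pool (Og O s ω) f x v) (univ.filter fun y => O y v)
        (univ.filter fun i => ∀ y, f i y ≠ some v)
        (fun x => by
          simp only [mem_filter, mem_univ, true_and]
          exact pool_iff bo x v)
        (fun y => by simp only [mem_filter, mem_univ, true_and])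
        (fun i => by simp only [mem_filter, mem_univ, true_and])
      obtain ⟨⟨d1, -⟩, ⟨d2, -⟩⟩ := deg_bounds hO v (hdeg v).1 (hdeg v).2
      have e3 : (univ.filter fun y => pool (Og O s ω) f v y).card +
          (univ.filter fun x => pool (Og O s ω) f x v).card ≤
          (Y i v).card + (univ.filter fun y => R.Adj v y ∧ y ∈ Zc i).card := by
        rw [← card_union_of_disjoint]
        · refine (card_le_card ?_).trans (card_union_le _ _)
          intro y hy
          have hy' : pool (Og O s ω) f v y ∨ pool (Og O s ω) f y v := by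
            simpa only [mem_union, mem_filter, mem_univ, true_and] using hy
          rw [mem_union]
          by_cases hz : y ∈ Zc i
          · right
            simp only [mem_filter, mem_univ, true_and]
            exact ⟨poolR _ _ hy', hz⟩
          · left
            simp only [hY, mem_filter, mem_univ, true_and]
            exact ⟨hy', (bo.dom i y hz).1, (bo.dom i y hz).2⟩
        · rw [disjoint_left]
          intro y hy hy'
          simp only [mem_filter, mem_univ, true_and] at hy hy'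
          exact hO.asy _ _ ((pool_iff bo v y).mp hy).1 ((pool_iff bo y v).mp hy').1
      have e4 : ((univ.filter fun y => R.Adj v y ∧ y ∈ Zc i).card : ℝ) ≤
          (k : ℝ) ^ (0.48 : ℝ) := by
        rw [← ncard_filter]
        exact bo.d1 i v
      have e5 : 2 * K ≤ (Y i v).card + (univ.filter fun y => R.Adj v y ∧ y ∈ Zc i).card +
          2 * n := by omega
      have e6 : 2 * (K : ℝ) ≤ (Y i v).card +
          ((univ.filter fun y => R.Adj v y ∧ y ∈ Zc i).card : ℝ) + 2 * n := by exact_mod_cast e5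
      linarith
    have h5 : (2 * ((K : ℝ) - n) - (k : ℝ) ^ (0.48 : ℝ)) * ((s : ℝ) / K) ^ 2 ≤
        (Y i v).card * ((s : ℝ) / K) ^ 2 := mul_le_mul_of_nonneg_right h4 hpos2
    have h6 := nm.nm1
    have h7 : 11 * (s : ℝ) * ((s : ℝ) / K) ^ 2 ≤ ((K : ℝ) - n) * ((s : ℝ) / K) ^ 2 :=
      mul_le_mul_of_nonneg_right (by linarith) hpos2
    have h8 : ((cM i v η).card : ℝ) ≤ ({y | (pool (Og O s ω) f v y ∨ pool (Og O s ω) f y v) ∧
        both s η f i y}.ncard : ℝ) := by exact_mod_cast h1
    refine le_trans ?_ h8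
    have h9 := h3.1
    linarith
  · -- both arcs marked: few
    intro i y
    have hA1 : ((JA i y).card : ℝ) ≤ 160 * (s * (k : ℝ) ^ (-c2)) := by
      have h1 := card_pairs_left (bo.inj i) (univ.filter fun v => v ∈ S ∧
          ∃ g, (y, v) ∈ Og O s ω g ∨ (v, y) ∈ Og O s ω g) (JA i y) (by
        intro q hq
        obtain ⟨h1, h2, _⟩ := (mem_filter.mp hq).2
        exact ⟨by simpa using h1, h2⟩)
      have h2 : ((univ.filter fun v => v ∈ S ∧
          ∃ g, (y, v) ∈ Og O s ω g ∨ (v, y) ∈ Og O s ω g).card : ℝ) ≤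
          80 * (s * (k : ℝ) ^ (-c2)) := by
        have h3 : (univ.filter fun v => v ∈ S ∧
          ∃ g, (y, v) ∈ Og O s ω g ∨ (v, y) ∈ Og O s ω g) ⊆
          (univ : Finset (Fin 40)).biUnion fun g =>
            (outN (Og O s ω g) y ∩ S) ∪ (inN (Og O s ω g) y ∩ S) := by
          intro v hv'
          obtain ⟨h4, g, h5⟩ := (mem_filter.mp hv').2
          simp only [mem_biUnion, mem_univ, true_and, mem_union, mem_inter, outN, inN,
            mem_filter]
          exact ⟨g, h5.imp (fun h => ⟨h, h4⟩) (fun h => ⟨h, h4⟩)⟩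
        have h4 := card_biUnion_real (univ : Finset (Fin 40)) (fun g =>
            (outN (Og O s ω g) y ∩ S) ∪ (inN (Og O s ω g) y ∩ S)) (2 * (s * (k : ℝ) ^ (-c2)))
            (by
          intro g _
          have h5 : (((outN (Og O s ω g) y ∩ S) ∪ (inN (Og O s ω g) y ∩ S)).card : ℝ) ≤
              (outN (Og O s ω g) y ∩ S).card + (inN (Og O s ω g) y ∩ S).card := by
            exact_mod_cast card_union_le _ _
          have h6 := hSg g y
          linarith [h6.1, h6.2])
        rw [card_univ, Fintype.card_fin] at h4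
        have h5 : ((univ.filter fun v => v ∈ S ∧
          ∃ g, (y, v) ∈ Og O s ω g ∨ (v, y) ∈ Og O s ω g).card : ℝ) ≤
          (((univ : Finset (Fin 40)).biUnion fun g =>
            (outN (Og O s ω g) y ∩ S) ∪ (inN (Og O s ω g) y ∩ S)).card : ℝ) := by
          exact_mod_cast card_le_card h3
        push_cast at h4
        linarith
      have h3 : ((JA i y).card : ℝ) ≤ 2 * ((univ.filter fun v => v ∈ S ∧
          ∃ g, (y, v) ∈ Og O s ω g ∨ (v, y) ∈ Og O s ω g).card : ℝ) := by exact_mod_cast h1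
      linarith
    have hB1 : ((JB i y).card : ℝ) ≤ 2 * (k : ℝ) ^ (1 - c2) := by
      have h1 := card_pairs_left (bo.inj i) (univ.filter fun v => R.Adj y v ∧ v ∈ S)
        (JB i y) (by
        intro q hq
        obtain ⟨h1, h2, _⟩ := (mem_filter.mp hq).2
        exact ⟨by simpa using ⟨h1.2, h1.1⟩, h2⟩)
      have h2 : ((univ.filter fun v => R.Adj y v ∧ v ∈ S).card : ℝ) ≤ (k : ℝ) ^ (1 - c2) := by
        rw [← ncard_filter]
        exact hS y
      have h3 : ((JB i y).card : ℝ) ≤ 2 * ((univ.filter fun v => R.Adj y v ∧ v ∈ S).card : ℝ) := by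
        exact_mod_cast h1
      linarith
    have hA2 : ∑ q ∈ JA i y, ((s : ℝ) / K) ^ (Fb (f i) q.2).card =
        (JA i y).card * ((s : ℝ) / K) ^ 2 := by
      rw [← nsmul_eq_mul, ← sum_const]
      exact sum_congr rfl fun q hq => by rw [fb2 i q.2 (mem_filter.mp hq).2.2.2]
    have hB2 : ∑ q ∈ JB i y, ((s : ℝ) / K) ^ (insert s(y, q.1) (Fb (f i) q.2)).card =
        (JB i y).card * ((s : ℝ) / K) ^ 3 := by
      rw [← nsmul_eq_mul, ← sum_const]
      exact sum_congr rfl fun q hq => by rw [fb3 i y q hq]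
    have gA' := gMA i y
    have gB' := gMB i y
    rw [hA2, abs_lt] at gA'
    rw [hB2, abs_lt] at gB'
    -- the set is covered
    have hcov : {v | (TT R s ω η).Adj y v ∧ v ∈ S ∧ ∃ z, (f i v = some z ∨ f i z = some v) ∧
        both s η f i z}.ncard ≤ (cA i y η).card + (cB i y η).card + 2 := by
      rw [ncard_filter]
      have h1 : (univ.filter fun v => (TT R s ω η).Adj y v ∧ v ∈ S ∧
          ∃ z, (f i v = some z ∨ f i z = some v) ∧ both s η f i z) ⊆
          (((cA i y η).image Prod.fst) ∪ ((cB i y η).image Prod.fst)) ∪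
            univ.filter fun v => nbr (f i) v y := by
        intro v hv'
        obtain ⟨⟨h2, h3⟩, h4, z, h5, h6⟩ := (mem_filter.mp hv').2
        obtain ⟨h7, h8⟩ := (both_iff s η T hT f i (bo.inj i) z).mp h6
        rw [mem_union, mem_union]
        by_cases hopt : typ K s (ω s(y, v)) = none
        · have h9 : mkd s η y v := h3.resolve_left (fun h => h hopt)
          by_cases hzy : z = y
          · right
            subst hzy
            simp only [mem_filter, mem_univ, true_and]
            exact h5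
          · left; right
            rw [mem_image]
            refine ⟨(v, z), ?_, rfl⟩
            simp only [hcB, hJB, mem_filter, mem_univ, true_and]
            refine ⟨⟨⟨h4, h2⟩, h5, h7, hzy⟩, ?_⟩
            intro e he
            rw [mem_insert] at he
            rcases he with rfl | he
            · exact (hT _).mpr h9
            · exact h8 e he
        · left; left
          rw [mem_image]
          refine ⟨(v, z), ?_, rfl⟩
          simp only [hcA, hJA, mem_filter, mem_univ, true_and]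
          refine ⟨⟨⟨h4, ?_⟩, h5, h7⟩, h8⟩
          obtain ⟨g, hg⟩ := Option.ne_none_iff_exists'.mp hopt
          refine ⟨g, ?_⟩
          rcases (hO.adj y v).mp h2 with h9 | h9
          · exact Or.inl ⟨h9, hg⟩
          · refine Or.inr ⟨h9, ?_⟩
            show typ K s (ω s(v, y)) = some g
            rw [Sym2.eq_swap]
            exact hg
      have h2 : (univ.filter fun v => nbr (f i) v y).card ≤ 2 := by
        have h3 := card_pairs_right (bo.inj i) {y}
          ((univ.filter fun v => nbr (f i) v y).image fun v => (v, y)) (by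
          intro q hq
          rw [mem_image] at hq
          obtain ⟨v, hv', rfl⟩ := hq
          exact ⟨mem_singleton_self y, (mem_filter.mp hv').2⟩)
        rw [card_singleton, card_image_of_injective _ (fun a b h => (Prod.mk.inj h).1)] at h3
        omega
      refine (card_le_card h1).trans ?_
      refine (card_union_le _ _).trans ?_
      refine add_le_add ((card_union_le _ _).trans (add_le_add card_image_le card_image_le)) h2
    have hcov' : ({v | (TT R s ω η).Adj y v ∧ v ∈ S ∧ ∃ z, (f i v = some z ∨ f i z = some v) ∧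
        both s η f i z}.ncard : ℝ) ≤ (cA i y η).card + (cB i y η).card + 2 := by
      exact_mod_cast hcov
    have hA3 : ((JA i y).card : ℝ) * ((s : ℝ) / K) ^ 2 ≤
        160 * (s * (k : ℝ) ^ (-c2)) * ((s : ℝ) / K) ^ 2 := mul_le_mul_of_nonneg_right hA1 hpos2
    have hB3 : ((JB i y).card : ℝ) * ((s : ℝ) / K) ^ 3 ≤
        2 * (k : ℝ) ^ (1 - c2) * ((s : ℝ) / K) ^ 3 :=
      mul_le_mul_of_nonneg_right hB1 (by positivity)
    have h9 := nm.nm2
    linarith [gA'.2, gB'.2]

end Pool.Agent.C4N.H91
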