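import Pool.Agent.C4N.Stm
import Pool.Agent.Helper10_C4K.Clo

/-!
# MRK, combinatorial lemmas
-/

set_option autoImplicit false

open scoped BigOperators Classical

noncomputable section

namespace Pool.Agent.C4N.H91

open Finset
open Pool.Agent.C4K (PInj it)
open Pool.Agent.C4K.H10 (it_add it_succ it_inj)

section prob

variable {E α : Type} [Fintype E] [Fintype α] [Nonempty α]

/-- the probability that no coin of `F` is in `T` -/
lemma card_avoid (F : Finset E) (T : Finset α) (P : Finset (E → α))
    (hP : ∀ ω ∈ P, ∀ e ∈ F, ω e ∉ T) :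
    (P.card : ℝ) ≤
      Real.exp (-(F.card * ((T.card : ℝ) / Fintype.card α))) * Nat.card (E → α) := by
  have hα : (0 : ℝ) < Fintype.card α := by exact_mod_cast Fintype.card_pos
  have h1 : P ⊆ Fintype.piFinset fun e => if e ∈ F then Tᶜ else univ := by
    intro ω hω
    rw [Fintype.mem_piFinset]
    intro e
    by_cases he : e ∈ F
    · simp [he, hP ω hω e he]
    · simp [he]
  have h1' : (P.card : ℝ) ≤ ((Fintype.piFinset fun e : E =>
      if e ∈ F then Tᶜ else univ).card : ℝ) := by
    exact_mod_cast card_le_card h1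
  refine h1'.trans ?_
  rw [Fintype.card_piFinset, Nat.card_eq_fintype_card]
  push_cast
  have h2 : ∀ e : E, (((if e ∈ F then Tᶜ else univ : Finset α)).card : ℝ) ≤
      Real.exp (-((if e ∈ F then 1 else 0) * ((T.card : ℝ) / Fintype.card α))) *
        Fintype.card α := by
    intro e
    by_cases he : e ∈ F
    · rw [if_pos he, if_pos he, one_mul, card_compl, Nat.cast_sub (card_le_univ T)]
      have := Real.add_one_le_exp (-((T.card : ℝ) / Fintype.card α))
      calc (Fintype.card α : ℝ) - T.card =
            (-((T.card : ℝ) / Fintype.card α) + 1) * Fintype.card α := by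
            field_simp
            ring
        _ ≤ _ := mul_le_mul_of_nonneg_right this hα.le
    · rw [if_neg he, if_neg he, zero_mul, neg_zero, Real.exp_zero, one_mul, card_univ]
  refine (Finset.prod_le_prod (fun e _ => Nat.cast_nonneg _) fun e _ => h2 e).trans ?_
  rw [Finset.prod_mul_distrib, ← Real.exp_sum, Finset.prod_const, card_univ, Fintype.card_fun,
    Nat.cast_pow, Finset.sum_neg_distrib, ← Finset.sum_mul]
  have h3 : (∑ e : E, if e ∈ F then (1 : ℝ) else 0) = F.card := by
    rw [Finset.sum_ite_mem, univ_inter, sum_const, nsmul_eq_mul, mul_one]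
  rw [h3]

/-- deviation of the number of coins in `T` -/
lemma edc_dev (edc : EDCStmt) (F : Finset E) (T : Finset α) (t k : ℝ) (ht : 0 < t)
    (hF : (F.card : ℝ) ≤ k) (P : Finset (E → α)) (c : (E → α) → Finset E)
    (hc : ∀ ω e, e ∈ c ω ↔ e ∈ F ∧ ω e ∈ T)
    (hP : ∀ ω ∈ P, t ≤ |((c ω).card : ℝ) - F.card * ((T.card : ℝ) / Fintype.card α)|) :
    (P.card : ℝ) ≤ 2 * Real.exp (-(t ^ 2 / (2 * k))) * Nat.card (E → α) := by
  have hcw : ∀ ω, c ω = F.filter fun e => ω e ∈ T := by
    intro ω; ext e; rw [hc, mem_filter]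
  rw [Nat.card_eq_fintype_card]
  rcases Nat.eq_zero_or_pos F.card with h0 | h0
  · have hF0 : F = ∅ := card_eq_zero.mp h0
    have h1 : P = ∅ := by
      rw [eq_empty_iff_forall_notMem]
      intro ω hω
      have h2 := hP ω hω
      rw [hcw, hF0] at h2
      simp at h2
      linarith
    rw [h1, card_empty]
    simp only [Nat.cast_zero]
    positivity
  · have h1 := (edc E α F T (F.card * ((T.card : ℝ) / Fintype.card α)) t le_rfl ht.le).2.1 h0
    have h3 : (P.card : ℝ) ≤ ((univ.filter fun ω : E → α =>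
      t ≤ |((F.filter fun e => ω e ∈ T).card : ℝ) -
        F.card * ((T.card : ℝ) / Fintype.card α)|).card : ℝ) := by
      have : P ⊆ univ.filter fun ω : E → α =>
          t ≤ |((F.filter fun e => ω e ∈ T).card : ℝ) -
          F.card * ((T.card : ℝ) / Fintype.card α)| := by
        intro ω hω
        have h2 := hP ω hω
        rw [hcw] at h2
        simpa using h2
      exact_mod_cast card_le_card this
    refine (h3.trans h1).trans (mul_le_mul_of_nonneg_right (mul_le_mul_of_nonneg_left
      (Real.exp_le_exp.mpr (neg_le_neg ?_)) (by norm_num)) (by positivity))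
    have h2 : (0 : ℝ) < F.card := by exact_mod_cast h0
    exact div_le_div_of_nonneg_left (by positivity) (by positivity) (by linarith)

/-- upper tail of the number of coins in `T` -/
lemma edc_up (edc : EDCStmt) (F : Finset E) (T : Finset α) (m t : ℝ)
    (hm : F.card * ((T.card : ℝ) / Fintype.card α) ≤ m) (ht : 0 ≤ t)
    (P : Finset (E → α)) (c : (E → α) → Finset E)
    (hc : ∀ ω e, e ∈ c ω ↔ e ∈ F ∧ ω e ∈ T) (hP : ∀ ω ∈ P, 2 * m + t ≤ ((c ω).card : ℝ)) :
    (P.card : ℝ) ≤ Real.exp (-t) * Nat.card (E → α) := by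
  have hcw : ∀ ω, c ω = F.filter fun e => ω e ∈ T := by
    intro ω; ext e; rw [hc, mem_filter]
  rw [Nat.card_eq_fintype_card]
  refine le_trans ?_ (edc E α F T m t hm ht).1
  have : P ⊆ univ.filter fun ω : E → α =>
      2 * m + t ≤ ((F.filter fun e => ω e ∈ T).card : ℝ) := by
    intro ω hω
    have h2 := hP ω hω
    rw [hcw] at h2
    simpa using h2
  exact_mod_cast card_le_card this

/-- many coins in `T` -/
lemma edc_pow (edc : EDCStmt) (F : Finset E) (T : Finset α) (m : ℝ)
    (hm : F.card * ((T.card : ℝ) / Fintype.card α) ≤ m) (j : ℕ)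
    (P : Finset (E → α)) (c : (E → α) → Finset E)
    (hc : ∀ ω e, e ∈ c ω ↔ e ∈ F ∧ ω e ∈ T) (hP : ∀ ω ∈ P, j ≤ (c ω).card) :
    (P.card : ℝ) ≤ m ^ j * Nat.card (E → α) := by
  have hcw : ∀ ω, c ω = F.filter fun e => ω e ∈ T := by
    intro ω; ext e; rw [hc, mem_filter]
  rw [Nat.card_eq_fintype_card]
  refine le_trans ?_ ((edc E α F T m 0 hm le_rfl).2.2 j)
  have : P ⊆ univ.filter fun ω : E → α => j ≤ (F.filter fun e => ω e ∈ T).card := by
    intro ω hω
    have h2 := hP ω hω
    rw [hcw] at h2
    simpa using h2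
  exact_mod_cast card_le_card this

end prob

section arcs

variable {V : Type} [Fintype V]

/-- the number of arcs of a class with a property, as edges -/
lemma card_arc {O : V → V → Prop} (asy : ∀ x y, O x y → ¬ O y x) {f : V → Option V}
    (hf : ∀ x y, f x = some y → O x y) (Q : V → V → Prop) (A : Finset V) (B : Finset (Sym2 V))
    (hA : ∀ x, x ∈ A ↔ ∃ y, f x = some y ∧ Q x y)
    (hB : ∀ e, e ∈ B ↔ ∃ x y, e = s(x, y) ∧ f x = some y ∧ Q x y) : A.card = B.card := by
  refine card_bij (fun x _ => s(x, (f x).getD x)) ?_ ?_ ?_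
  · intro x hx
    rw [hA] at hx
    rw [hB]
    obtain ⟨y, hy, hQ⟩ := hx
    exact ⟨x, y, by rw [hy]; rfl, hy, hQ⟩
  · intro x hx x' hx' h
    rw [hA] at hx hx'
    obtain ⟨y, hy, -⟩ := hx
    obtain ⟨y', hy', -⟩ := hx'
    rw [hy, hy'] at h
    simp only [Option.getD_some, Sym2.eq_iff] at h
    rcases h with ⟨h1, _⟩ | ⟨h1, h2⟩
    · exact h1
    · exfalso
      have h3 := hf _ _ hy
      have h4 := hf _ _ hy'
      rw [h1, h2] at h3
      exact asy _ _ h4 h3
  · intro e he
    rw [hB] at he
    obtain ⟨x, y, rfl, hy, hQ⟩ := he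
    exact ⟨x, (hA x).mpr ⟨y, hy, hQ⟩, by rw [hy]; rfl⟩

/-- the number of edges at a vertex with a property -/
lemma card_star (v : V) (Q : V → Prop) (A : Finset V) (B : Finset (Sym2 V))
    (hA : ∀ y, y ∈ A ↔ Q y) (hB : ∀ e, e ∈ B ↔ ∃ y, e = s(v, y) ∧ Q y) : A.card = B.card := by
  refine card_bij (fun y _ => s(v, y)) ?_ ?_ ?_
  · intro y hy
    rw [hB]
    exact ⟨y, rfl, (hA y).mp hy⟩
  · intro y _ y' _ h
    exact Sym2.congr_right.mp h
  · intro e he
    rw [hB] at he
    obtain ⟨y, rfl, hQ⟩ := he
    exact ⟨y, (hA y).mpr hQ, rfl⟩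

/-- tails and heads of a partial injection -/
lemma card_head {f : V → Option V} (hf : PInj f) (Q : V → Prop) :
    (univ.filter fun x => ∃ y, f x = some y ∧ Q y).card =
      (univ.filter fun y => Q y ∧ ∃ x, f x = some y).card := by
  refine card_bij (fun x _ => (f x).getD x) ?_ ?_ ?_
  · intro x hx
    simp only [mem_filter, mem_univ, true_and] at hx ⊢
    obtain ⟨y, hy, hQ⟩ := hx
    rw [hy]
    exact ⟨hQ, x, hy⟩
  · intro x hx x' hx' h
    simp only [mem_filter, mem_univ, true_and] at hx hx'
    obtain ⟨y, hy, -⟩ := hx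
    obtain ⟨y', hy', -⟩ := hx'
    rw [hy, hy'] at h
    simp only [Option.getD_some] at h
    rw [← h] at hy'
    exact hf _ _ _ hy hy'
  · intro y hy
    simp only [mem_filter, mem_univ, true_and] at hy
    obtain ⟨hQ, x, hx⟩ := hy
    exact ⟨x, by simp only [mem_filter, mem_univ, true_and]; exact ⟨y, hx, hQ⟩, by rw [hx]; rfl⟩

/-- the out-degree in the pool -/
lemma pool_card {n : ℕ} (O : V → V → Prop) (Fr : Fin n → V → V → Prop)
    (hfun : ∀ i x y y', Fr i x y → Fr i x y' → y = y')
    (hdis : ∀ i i' x y, Fr i x y → Fr i' x y → i = i') (hO : ∀ i x y, Fr i x y → O x y) (x : V)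
    (A B : Finset V) (I : Finset (Fin n)) (hA : ∀ y, y ∈ A ↔ O x y ∧ ∀ i, ¬ Fr i x y)
    (hB : ∀ y, y ∈ B ↔ O x y) (hI : ∀ i, i ∈ I ↔ ∀ y, ¬ Fr i x y) :
    A.card + n = B.card + I.card := by
  have h1 : B.card = A.card + (univ.filter fun y => ∃ i, Fr i x y).card := by
    rw [← card_union_of_disjoint]
    · congr 1
      ext y
      simp only [mem_filter, mem_univ, true_and, mem_union, hA, hB]
      constructor
      · intro hy
        by_cases h : ∃ i, Fr i x y
        · exact Or.inr h
        · push Not at h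
          exact Or.inl ⟨hy, h⟩
      · rintro (h | ⟨i, h⟩)
        · exact h.1
        · exact hO i x y h
    · rw [disjoint_left]
      intro y hy hy'
      simp only [mem_filter, mem_univ, true_and, hA] at hy hy'
      obtain ⟨i, hi⟩ := hy'
      exact hy.2 i hi
  have h2 : (univ.filter fun i : Fin n => ∃ y, Fr i x y).card =
      (univ.filter fun y => ∃ i, Fr i x y).card := by
    refine card_bij (fun i hi => (mem_filter.mp hi).2.choose) ?_ ?_ ?_
    · intro i hi
      simp only [mem_filter, mem_univ, true_and]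
      exact ⟨i, (mem_filter.mp hi).2.choose_spec⟩
    · intro i hi i' hi' h
      have h3 := (mem_filter.mp hi).2.choose_spec
      have h4 := (mem_filter.mp hi').2.choose_spec
      rw [← h] at h4
      exact hdis _ _ _ _ h3 h4
    · intro y hy
      simp only [mem_filter, mem_univ, true_and] at hy
      obtain ⟨i, hi⟩ := hy
      have hm : i ∈ univ.filter fun i : Fin n => ∃ y, Fr i x y := by
        simp only [mem_filter, mem_univ, true_and]
        exact ⟨y, hi⟩
      exact ⟨i, hm, hfun i x _ _ (mem_filter.mp hm).2.choose_spec hi⟩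
  have h3 : n = (univ.filter fun i : Fin n => ∃ y, Fr i x y).card + I.card := by
    have h4 := card_filter_add_card_filter_not (s := (univ : Finset (Fin n)))
      (fun i => ∃ y, Fr i x y)
    rw [card_univ, Fintype.card_fin] at h4
    have h5 : (univ.filter fun i : Fin n => ¬ ∃ y, Fr i x y) = I := by
      ext i
      simp only [mem_filter, mem_univ, true_and, not_exists, hI]
    rw [h5] at h4
    exact h4.symm
  omega

end arcs

section iter

variable {V : Type} [Fintype V]

/-- the edges of the first `L1` nodes of a path -/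
def We (f : V → Option V) (L1 : ℕ) (u : V) : Finset (Sym2 V) :=
  univ.filter fun e => ∃ j x y, j + 1 < L1 ∧ it f j u = some x ∧ f x = some y ∧ e = s(x, y)

lemma card_We_le (f : V → Option V) (L1 : ℕ) (u : V) : (We f L1 u).card ≤ L1 := by
  have h : We f L1 u ⊆ (range L1).image fun j =>
      s((it f j u).getD u, (it f (j + 1) u).getD u) := by
    intro e he
    simp only [We, mem_filter, mem_univ, true_and] at he
    obtain ⟨j, x, y, hj, hx, hy, rfl⟩ := he
    rw [mem_image]
    refine ⟨j, mem_range.mpr (by omega), ?_⟩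
    have h2 : it f (j + 1) u = some y := by rw [it_succ, hx]; exact hy
    rw [hx, h2]
    rfl
  exact (card_le_card h).trans (card_image_le.trans (card_range L1).le)

/-- the nodes of a path are different -/
lemma nodes_ne {f : V → Option V} (hf : PInj f) {L1 : ℕ}
    (hlen : ∀ x j, 1 ≤ j → it f j x = some x → L1 ≤ j) (u : V) {a b : ℕ} {x : V} (hb : b < L1)
    (ha : it f a u = some x) (hb' : it f b u = some x) : ¬ a < b := by
  intro hab
  obtain ⟨d, rfl⟩ := Nat.exists_eq_add_of_le hab.le
  have h1 : it f d x = some x := by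
    rw [it_add, ha] at hb'
    exact hb'
  have h2 := hlen x d (by omega) h1
  omega

lemma le_card_We {f : V → Option V} (hf : PInj f) {L1 : ℕ}
    (hlen : ∀ x j, 1 ≤ j → it f j x = some x → L1 ≤ j) (u : V)
    (hu : ∀ j, j < L1 → it f j u ≠ none) : L1 - 1 ≤ (We f L1 u).card := by
  have key : ∀ j, j < L1 → ∃ x, it f j u = some x := fun j hj =>
    Option.ne_none_iff_exists'.mp (hu j hj)
  have h1 : (range (L1 - 1)).card ≤ (We f L1 u).card := by
    refine card_le_card_of_injOn (fun j => s((it f j u).getD u, (it f (j + 1) u).getD u)) ?_ ?_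
    · intro j hj
      have hj' : j < L1 - 1 := by simpa using hj
      obtain ⟨x, hx⟩ := key j (by omega)
      obtain ⟨y, hy⟩ := key (j + 1) (by omega)
      have hxy : f x = some y := by
        rw [it_succ, hx] at hy
        exact hy
      simp only [We, coe_filter, mem_univ, true_and, Set.mem_ofPred_eq]
      exact ⟨j, x, y, by omega, hx, hxy, by rw [hx, hy]; rfl⟩
    · intro j hj j' hj' h
      have hj1 : j < L1 - 1 := by simpa using hj
      have hj1' : j' < L1 - 1 := by simpa using hj'
      obtain ⟨x, hx⟩ := key j (by omega)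
      obtain ⟨y, hy⟩ := key (j + 1) (by omega)
      obtain ⟨x', hx'⟩ := key j' (by omega)
      obtain ⟨y', hy'⟩ := key (j' + 1) (by omega)
      simp only [hx, hy, hx', hy', Option.getD_some, Sym2.eq_iff] at h
      rcases h with ⟨h1, _⟩ | ⟨h1, h2⟩
      · subst h1
        have n1 := nodes_ne hf hlen u (by omega : j' < L1) hx hx'
        have n2 := nodes_ne hf hlen u (by omega : j < L1) hx' hx
        omega
      · subst h1
        subst h2
        have n1 := nodes_ne hf hlen u (by omega : j < L1) hy' hx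
        have n2 := nodes_ne hf hlen u (by omega : j' + 1 < L1) hx hy'
        have n3 := nodes_ne hf hlen u (by omega : j' < L1) hy hx'
        have n4 := nodes_ne hf hlen u (by omega : j + 1 < L1) hx' hy
        omega
  rwa [card_range] at h1

/-- an edge is in few of the sets `We` -/
lemma card_We_edge {n : ℕ} {O : V → V → Prop} (asy : ∀ x y, O x y → ¬ O y x)
    (f : Fin n → V → Option V) (hinj : ∀ i, PInj (f i)) (hf : ∀ i x y, f i x = some y → O x y)
    (hdis : ∀ i i' x y, f i x = some y → f i' x = some y → i = i') (L1 : ℕ) (e : Sym2 V)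
    (X : Finset (Fin n × V)) (hX : ∀ p ∈ X, e ∈ We (f p.1) L1 p.2) : X.card ≤ L1 := by
  have h0 : ∀ p ∈ X,
      ∃ j x y, j + 1 < L1 ∧ it (f p.1) j p.2 = some x ∧ f p.1 x = some y ∧ e = s(x, y) := by
    intro p hp
    have h := hX p hp
    simpa only [We, mem_filter, mem_univ, true_and] using h
  choose! j hj using h0
  have h1 : X.card ≤ (range L1).card := by
    refine card_le_card_of_injOn j ?_ ?_
    · intro p hp
      obtain ⟨x, y, h, _⟩ := hj p (by simpa using hp)
      simp only [coe_range, Set.mem_Iio]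
      omega
    · intro p hp p' hp' h
      obtain ⟨x, y, _, h2, h3, h4⟩ := hj p (by simpa using hp)
      obtain ⟨x', y', _, h2', h3', h4'⟩ := hj p' (by simpa using hp')
      rw [h4, Sym2.eq_iff] at h4'
      rcases h4' with ⟨rfl, rfl⟩ | ⟨rfl, rfl⟩
      · have hi : p.1 = p'.1 := hdis _ _ _ _ h3 h3'
        have hh : j p = j p' := h
        rw [← hh, ← hi] at h2'
        have hv : p.2 = p'.2 := it_inj (hinj p.1) _ _ _ _ h2 h2'
        exact Prod.ext hi hv
      · exact absurd (hf _ _ _ h3') (asy _ _ (hf _ _ _ h3))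
  rwa [card_range] at h1

end iter

end Pool.Agent.C4N.H91
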