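import Pool.Agent.Helper91_C4N.MrkA

/-!
# MRK, sizes, dependence and moments
-/

set_option autoImplicit false

open scoped BigOperators Classical

noncomputable section

namespace Pool.Agent.C4N.H91

open Finset
open Pool.Agent.C4K (PInj it)
open Pool.Agent.LAG (near Big)
open Pool.Agent.Helper13_Conc (mean)

section deg

variable {V : Type} [Fintype V]

lemma ncard_filter (P : V → Prop) [DecidablePred P] :
    {y | P y}.ncard = (univ.filter fun y => P y).card := by
  rw [← Set.ncard_coe_finset]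
  congr 1
  ext y
  simp

lemma dg_eq (R : SimpleGraph V) (v : V) : dg R v = (univ.filter fun y => R.Adj v y).card := by
  rw [← ncard_filter]
  rfl

lemma ori_deg {R : SimpleGraph V} {O : V → V → Prop} (hO : Ori R O) (v : V) :
    dg R v = (univ.filter fun y => O v y).card + (univ.filter fun y => O y v).card := by
  rw [dg_eq, ← card_union_of_disjoint]
  · congr 1
    ext y
    simp only [mem_filter, mem_univ, true_and, mem_union]
    exact hO.adj v y
  · rw [disjoint_left]
    intro y hy hy'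
    simp only [mem_filter, mem_univ, true_and] at hy hy'
    exact hO.asy _ _ hy hy'

lemma deg_bounds {R : SimpleGraph V} {O : V → V → Prop} (hO : Ori R O) (v : V) {K C : ℕ}
    (h1 : 2 * K ≤ dg R v) (h2 : dg R v ≤ 2 * K + C) :
    (K ≤ (univ.filter fun y => O v y).card ∧ (univ.filter fun y => O v y).card ≤ K + C) ∧
    (K ≤ (univ.filter fun y => O y v).card ∧ (univ.filter fun y => O y v).card ≤ K + C) := by
  have h3 := ori_deg hO v
  obtain ⟨h4, h5⟩ := hO.bal v
  rw [ncard_filter, ncard_filter] at h4 h5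
  omega

end deg

section sizes

variable {V : Type} [Fintype V] {K C k s M n : ℕ} {c : ℝ} {R : SimpleGraph V}
  {O : V → V → Prop} {ω : Sym2 V → Fin K} {m : Fin 40 → ℕ} {f : Fin n → V → Option V}
  {Z : Finset V} {Zc : Fin n → Finset V}

lemma arc_O (bo : BO V k s M c R (Rf O s ω) (Og O s ω) m n f Z Zc) (i : Fin n) (x y : V)
    (h : f i x = some y) : O x y := by
  rcases bo.arc i x y h with h1 | ⟨g, h1⟩
  · exact h1.1
  · exact h1.1

lemma pool_iff (bo : BO V k s M c R (Rf O s ω) (Og O s ω) m n f Z Zc) (x y : V) :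
    pool (Og O s ω) f x y ↔ O x y ∧ ∀ i, ¬ f i x = some y := by
  constructor
  · rintro ⟨⟨g, hg⟩, h⟩
    exact ⟨hg.1, h⟩
  · rintro ⟨h1, h2⟩
    refine ⟨?_, h2⟩
    rcases h : typ K s (ω s(x, y)) with _ | g
    · obtain ⟨i, hi⟩ := bo.cov (x, y) ⟨h1, h⟩
      exact absurd hi (h2 i)
    · exact ⟨g, h1, h⟩

lemma size_a (bo : BO V k s M c R (Rf O s ω) (Og O s ω) m n f Z Zc) (hO : Ori R O)
    (hdeg : ∀ v, 2 * K ≤ dg R v ∧ dg R v ≤ 2 * K + C) (i : Fin n) (x : V) :
    ((K : ℝ) - n - (k : ℝ) ^ (0.48 : ℝ) ≤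
      ((univ.filter fun x' => ∃ y, f i x' = some y ∧ pool (Og O s ω) f x y).card : ℝ)) ∧
    ((univ.filter fun x' => ∃ y, f i x' = some y ∧ pool (Og O s ω) f x y).card : ℝ) ≤
      (K : ℝ) - n + C + 1 := by
  have h1 := card_head (bo.inj i) (fun y => pool (Og O s ω) f x y)
  have h2 := pool_card O (fun i x y => f i x = some y)
    (fun i x y y' h h' => Option.some_injective _ (h.symm.trans h'))
    (fun i i' x y h h' => bo.dis i i' x y h h') (fun i x y h => arc_O bo i x y h) x
    (univ.filter fun y => pool (Og O s ω) f x y) (univ.filter fun y => O x y)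
    (univ.filter fun i => f i x = none)
    (fun y => by
      simp only [mem_filter, mem_univ, true_and]
      exact pool_iff bo x y)
    (fun y => by simp only [mem_filter, mem_univ, true_and])
    (fun i => by
      simp only [mem_filter, mem_univ, true_and]
      rw [Option.eq_none_iff_forall_ne_some])
  have h4 : (univ.filter fun i : Fin n => f i x = none).card ≤ 1 := by
    have h5 := bo.one x
    omega
  obtain ⟨⟨d1, d2⟩, -⟩ := deg_bounds hO x (hdeg x).1 (hdeg x).2
  -- the heads outside the range of `f i`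
  have h7 : (univ.filter fun y => pool (Og O s ω) f x y).card ≤
      (univ.filter fun y => pool (Og O s ω) f x y ∧ ∃ x', f i x' = some y).card +
      (univ.filter fun y => R.Adj x y ∧ y ∈ Zc i).card := by
    refine (card_le_card ?_).trans (card_union_le _ _)
    intro y hy
    simp only [mem_filter, mem_univ, true_and, mem_union] at hy ⊢
    by_cases hx' : ∃ x', f i x' = some y
    · exact Or.inl ⟨hy, hx'⟩
    · refine Or.inr ⟨(hO.adj x y).mpr (Or.inl ((pool_iff bo x y).mp hy).1), ?_⟩
      by_contra hz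
      exact hx' (bo.dom i y hz).2
  have h8 : ((univ.filter fun y => R.Adj x y ∧ y ∈ Zc i).card : ℝ) ≤ (k : ℝ) ^ (0.48 : ℝ) := by
    rw [← ncard_filter]
    exact bo.d1 i x
  have h9 : (univ.filter fun y => pool (Og O s ω) f x y ∧ ∃ x', f i x' = some y).card ≤
      (univ.filter fun y => pool (Og O s ω) f x y).card := by
    apply card_le_card
    intro y hy
    simp only [mem_filter, mem_univ, true_and] at hy ⊢
    exact hy.1
  rw [h1]
  constructor
  · have e1 : (K : ℝ) ≤ (univ.filter fun y => pool (Og O s ω) f x y).card + (n : ℝ) := by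
      have : K ≤ (univ.filter fun y => pool (Og O s ω) f x y).card + n := by omega
      exact_mod_cast this
    have e2 : ((univ.filter fun y => pool (Og O s ω) f x y).card : ℝ) ≤
        ((univ.filter fun y => pool (Og O s ω) f x y ∧ ∃ x', f i x' = some y).card : ℝ) +
        ((univ.filter fun y => R.Adj x y ∧ y ∈ Zc i).card : ℝ) := by exact_mod_cast h7
    linarith
  · have e1 : ((univ.filter fun y => pool (Og O s ω) f x y ∧ ∃ x', f i x' = some y).card : ℝ) +
        (n : ℝ) ≤ K + C + 1 := by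
      have : (univ.filter fun y => pool (Og O s ω) f x y ∧ ∃ x', f i x' = some y).card + n ≤
        K + C + 1 := by omega
      exact_mod_cast this
    linarith

lemma size_b (bo : BO V k s M c R (Rf O s ω) (Og O s ω) m n f Z Zc) (hO : Ori R O)
    (hdeg : ∀ v, 2 * K ≤ dg R v ∧ dg R v ≤ 2 * K + C) (i : Fin n) (v : V) :
    ((K : ℝ) - n - (k : ℝ) ^ (0.48 : ℝ) ≤
      ((univ.filter fun x => ∃ y, f i x = some y ∧ pool (Og O s ω) f x v).card : ℝ)) ∧
    ((univ.filter fun x => ∃ y, f i x = some y ∧ pool (Og O s ω) f x v).card : ℝ) ≤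
      (K : ℝ) - n + C + 1 := by
  have h2 := pool_card (fun y x => O x y) (fun i y x => f i x = some y)
    (fun i y x x' h h' => bo.inj i x x' y h h')
    (fun i i' y x h h' => bo.dis i i' x y h h') (fun i y x h => arc_O bo i x y h) v
    (univ.filter fun x => pool (Og O s ω) f x v) (univ.filter fun y => O y v)
    (univ.filter fun i => ∀ y, f i y ≠ some v)
    (fun x => by
      simp only [mem_filter, mem_univ, true_and]
      exact pool_iff bo x v)
    (fun y => by simp only [mem_filter, mem_univ, true_and])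
    (fun i => by simp only [mem_filter, mem_univ, true_and])
  have h4 : (univ.filter fun i : Fin n => ∀ y, f i y ≠ some v).card ≤ 1 := by
    have h5 := bo.one v
    omega
  obtain ⟨-, ⟨d1, d2⟩⟩ := deg_bounds hO v (hdeg v).1 (hdeg v).2
  have h7 : (univ.filter fun x => pool (Og O s ω) f x v).card ≤
      (univ.filter fun x => ∃ y, f i x = some y ∧ pool (Og O s ω) f x v).card +
      (univ.filter fun x => R.Adj v x ∧ x ∈ Zc i).card := by
    refine (card_le_card ?_).trans (card_union_le _ _)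
    intro x hx
    simp only [mem_filter, mem_univ, true_and, mem_union] at hx ⊢
    by_cases hy : ∃ y, f i x = some y
    · obtain ⟨y, hy⟩ := hy
      exact Or.inl ⟨y, hy, hx⟩
    · refine Or.inr ⟨(hO.adj v x).mpr (Or.inr ((pool_iff bo x v).mp hx).1), ?_⟩
      by_contra hz
      exact hy (bo.dom i x hz).1
  have h8 : ((univ.filter fun x => R.Adj v x ∧ x ∈ Zc i).card : ℝ) ≤ (k : ℝ) ^ (0.48 : ℝ) := by
    rw [← ncard_filter]
    exact bo.d1 i v
  have h9 : (univ.filter fun x => ∃ y, f i x = some y ∧ pool (Og O s ω) f x v).card ≤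
      (univ.filter fun x => pool (Og O s ω) f x v).card := by
    apply card_le_card
    intro x hx
    simp only [mem_filter, mem_univ, true_and] at hx ⊢
    obtain ⟨y, _, h⟩ := hx
    exact h
  constructor
  · have e1 : (K : ℝ) ≤ (univ.filter fun x => pool (Og O s ω) f x v).card + (n : ℝ) := by
      have : K ≤ (univ.filter fun x => pool (Og O s ω) f x v).card + n := by omega
      exact_mod_cast this
    have e2 : ((univ.filter fun x => pool (Og O s ω) f x v).card : ℝ) ≤
        ((univ.filter fun x => ∃ y, f i x = some y ∧ pool (Og O s ω) f x v).card : ℝ) +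
        ((univ.filter fun x => R.Adj v x ∧ x ∈ Zc i).card : ℝ) := by exact_mod_cast h7
    linarith
  · have e1 : ((univ.filter fun x => ∃ y, f i x = some y ∧ pool (Og O s ω) f x v).card : ℝ) +
        (n : ℝ) ≤ K + C + 1 := by
      have : (univ.filter fun x => ∃ y, f i x = some y ∧ pool (Og O s ω) f x v).card + n ≤
        K + C + 1 := by omega
      exact_mod_cast this
    linarith

end sizes

section paths

variable {V : Type} [Fintype V] {K : ℕ}

/-- the edges near `v` -/
def Wv (R : SimpleGraph V) (ρ : ℕ) (v : V) : Finset (Sym2 V) :=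
  univ.filter fun e => ∃ x y, e = s(x, y) ∧ R.Adj x y ∧ near R ρ v x

lemma near_of_seq {R : SimpleGraph V} {a : ℕ} (z : Fin (a + 1) → V)
    (hz : ∀ i : Fin a, R.Adj (z i.castSucc) (z i.succ)) :
    ∀ (j : ℕ) (hj : j < a + 1), ∃ p : R.Walk (z 0) (z ⟨j, hj⟩), p.length = j := by
  intro j
  induction j with
  | zero => intro hj; exact ⟨SimpleGraph.Walk.nil, rfl⟩
  | succ j ih =>
    intro hj
    obtain ⟨p, hp⟩ := ih (by omega)
    have h1 := hz ⟨j, by omega⟩
    refine ⟨p.concat h1, ?_⟩
    rw [SimpleGraph.Walk.length_concat, hp]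

/-- the value of the sampled path counts depends on the edges near the start -/
lemma npw_dep (R : SimpleGraph V) (s : ℕ) (ω : Sym2 V → Fin K) {L ρ : ℕ} (hρ : L ≤ ρ)
    (v : V) (η η' : Sym2 V → Fin K) (h : ∀ e ∈ Wv R ρ v, η e = η' e) (a : ℕ) (ha : a ≤ L)
    (y : V) : npw (ind (TT R s ω η)) a v y = npw (ind (TT R s ω η')) a v y := by
  unfold npw
  refine sum_congr rfl fun z hz => ?_
  simp only [Sq, mem_filter, mem_univ, true_and] at hz
  by_cases hR : ∀ i : Fin a, R.Adj (z i.castSucc) (z i.succ)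
  · refine prod_congr rfl fun i _ => ?_
    have h1 : η s(z i.castSucc, z i.succ) = η' s(z i.castSucc, z i.succ) := by
      apply h
      simp only [Wv, mem_filter, mem_univ, true_and]
      refine ⟨_, _, rfl, hR i, ?_⟩
      have h3 : ∃ p : R.Walk (z 0) (z i.castSucc), p.length = i.1 :=
        near_of_seq z hR i.1 (by omega)
      rw [hz.1] at h3
      obtain ⟨q, hq⟩ := h3
      exact ⟨q, by rw [hq]; omega⟩
    have h4 : (TT R s ω η).Adj (z i.castSucc) (z i.succ) ↔
        (TT R s ω η').Adj (z i.castSucc) (z i.succ) := by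
      show (R.Adj _ _ ∧ (_ ∨ (η s(z i.castSucc, z i.succ)).1 < s)) ↔
        (R.Adj _ _ ∧ (_ ∨ (η' s(z i.castSucc, z i.succ)).1 < s))
      rw [h1]
    unfold ind
    simp only [h4]
  · push Not at hR
    obtain ⟨i, hi⟩ := hR
    have h0 : ∀ η : Sym2 V → Fin K, ind (TT R s ω η) (z i.castSucc) (z i.succ) = 0 := by
      intro η
      unfold ind
      rw [if_neg]
      rintro ⟨h1, _⟩
      exact hi h1
    rw [prod_eq_zero (mem_univ i) (h0 η), prod_eq_zero (mem_univ i) (h0 η')]

/-- no path to a vertex which is not near -/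
lemma npw_far (R T : SimpleGraph V) (hT : T ≤ R) {L : ℕ} (v y : V) (hy : ¬ near R L v y)
    (a : ℕ) (ha : a ≤ L) : npw (ind T) a v y = 0 := by
  unfold npw
  refine sum_eq_zero fun z hz => ?_
  simp only [Sq, mem_filter, mem_univ, true_and] at hz
  by_cases hR : ∀ i : Fin a, T.Adj (z i.castSucc) (z i.succ)
  · exfalso
    apply hy
    have h3 : ∃ p : R.Walk (z 0) (z ⟨a, by omega⟩), p.length = a :=
      near_of_seq z (fun i => hT (hR i)) a (by omega)
    have h4 : (⟨a, by omega⟩ : Fin (a + 1)) = Fin.last a := rfl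
    rw [hz.1, h4, hz.2.1] at h3
    obtain ⟨q, hq⟩ := h3
    exact ⟨q, by rw [hq]; exact ha⟩
  · push Not at hR
    obtain ⟨i, hi⟩ := hR
    exact prod_eq_zero (mem_univ i) (if_neg hi)

lemma npw_nonneg (T : SimpleGraph V) (a : ℕ) (x y : V) : 0 ≤ npw (ind T) a x y := by
  unfold npw
  refine sum_nonneg fun z _ => prod_nonneg fun i _ => ?_
  unfold ind
  split_ifs <;> norm_num

/-- the moment bound and Markov's inequality -/
lemma trk_markov {L m : ℕ} {DT : ℝ} (hDT : 1 ≤ DT)
    (htrk : ∀ (V α : Type) [Fintype V] [Fintype α]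
      [Nonempty α] (φ : Sym2 V → α → ℝ) (w : V → V → ℝ) (A κ Q : ℝ), 1 ≤ A → 1 ≤ κ → 1 ≤ Q →
      (∀ e t, 0 ≤ φ e t ∧ φ e t ≤ 1) →
      (∀ x y, (∑ t, φ s(x, y) t) / Fintype.card α ≤ w x y) → Cnt w L A κ Q →
      ∀ a x y, 1 ≤ a → a ≤ L → (x ≠ y ∨ 3 ≤ a) →
      mean (fun ω : Sym2 V → α => npw (fun u v => φ s(u, v) (ω s(u, v))) a x y ^ m) ≤
        (DT * A ^ L * max 1 (κ ^ a / Q)) ^ m)
    (R : SimpleGraph V) (s : ℕ) (ω : Sym2 V → Fin K) (A Q δ : ℝ) (hA : 1 ≤ A) (hQ : 1 ≤ Q)
    (hK : 1 ≤ K) (hs : 1 ≤ s) (hsK : s ≤ K) (hcnt : Cnt (w1 R s ω) L A (41 * s) Q)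
    (a : ℕ) (x y : V) (ha : 1 ≤ a) (haL : a ≤ L) (hxy : x ≠ y ∨ 3 ≤ a)
    (P : Finset (Sym2 V → Fin K)) (hP : ∀ η ∈ P,
      (K : ℝ) ^ δ * A ^ L * max 1 ((41 * s : ℝ) ^ a / Q) < npw (ind (TT R s ω η)) a x y) :
    (P.card : ℝ) ≤ (DT / (K : ℝ) ^ δ) ^ m * Nat.card (Sym2 V → Fin K) := by
  rw [Nat.card_eq_fintype_card]
  have hne : Nonempty (Fin K) := ⟨⟨0, hK⟩⟩
  have hK0 : (0 : ℝ) < K := by exact_mod_cast hK
  set φ : Sym2 V → Fin K → ℝ := fun e t =>
    if e ∈ R.edgeSet then (if typ K s (ω e) = none then (if t.1 < s then 1 else 0) else 1)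
      else 0 with hφ
  have h1 : ∀ η : Sym2 V → Fin K, (fun u v => φ s(u, v) (η s(u, v))) = ind (TT R s ω η) := by
    intro η
    funext u v
    simp only [hφ, ind, TT, mkd, SimpleGraph.mem_edgeSet]
    by_cases h : R.Adj u v
    · by_cases h' : typ K s (ω s(u, v)) = none
      · simp [h, h']
      · simp [h, h']
    · simp [h]
  have hcard : (univ.filter fun t : Fin K => t.1 < s).card = s := by
    have : (univ.filter fun t : Fin K => t.1 < s) =
        (univ : Finset (Fin s)).map (Fin.castLEEmb hsK) := by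
      ext t
      simp only [mem_filter, mem_univ, true_and, mem_map, Fin.castLEEmb_apply]
      constructor
      · intro h
        exact ⟨⟨t.1, h⟩, rfl⟩
      · rintro ⟨u, rfl⟩
        exact u.2
    rw [this, card_map, card_univ, Fintype.card_fin]
  have h2 := htrk V (Fin K) φ (w1 R s ω) A (41 * s) Q hA (by
      have : (1 : ℝ) ≤ s := by exact_mod_cast hs
      linarith) hQ (by
      intro e t
      simp only [hφ]
      split_ifs <;> norm_num) (by
      intro x y
      rw [Fintype.card_fin]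
      simp only [hφ, w1, SimpleGraph.mem_edgeSet]
      by_cases h : R.Adj x y
      · simp only [h, if_true]
        by_cases h' : typ K s (ω s(x, y)) = none
        · simp only [h', if_true]
          rw [sum_ite, sum_const_zero, add_zero, sum_const, hcard, nsmul_eq_mul, mul_one]
        · simp only [h', if_false]
          rw [sum_const, card_univ, Fintype.card_fin, nsmul_eq_mul, mul_one, div_self hK0.ne']
      · simp [h]) hcnt a x y ha haL hxy
  simp only [h1] at h2
  -- Markov
  set Mx : ℝ := max 1 ((41 * s : ℝ) ^ a / Q) with hMx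
  have hMx1 : 1 ≤ Mx := le_max_left _ _
  have hKδ : 0 < (K : ℝ) ^ δ := Real.rpow_pos_of_pos hK0 _
  have hAL : 0 < A ^ L := by positivity
  have hN : (0 : ℝ) < Fintype.card (Sym2 V → Fin K) := by exact_mod_cast Fintype.card_pos
  have h3 : (P.card : ℝ) * ((K : ℝ) ^ δ * A ^ L * Mx) ^ m ≤
      ∑ η : Sym2 V → Fin K, npw (ind (TT R s ω η)) a x y ^ m := by
    calc (P.card : ℝ) * ((K : ℝ) ^ δ * A ^ L * Mx) ^ m =
          ∑ _η ∈ P, ((K : ℝ) ^ δ * A ^ L * Mx) ^ m := by rw [sum_const, nsmul_eq_mul]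
      _ ≤ ∑ η ∈ P, npw (ind (TT R s ω η)) a x y ^ m := by
          refine sum_le_sum fun η hη => ?_
          exact pow_le_pow_left₀ (by positivity) (hP η hη).le m
      _ ≤ _ := sum_le_univ_sum_of_nonneg fun η => pow_nonneg (npw_nonneg _ _ _ _) m
  have h4 : ∑ η : Sym2 V → Fin K, npw (ind (TT R s ω η)) a x y ^ m ≤
      (DT * A ^ L * Mx) ^ m * Fintype.card (Sym2 V → Fin K) := by
    rw [mean, div_le_iff₀ hN] at h2
    exact h2
  have h5 : 0 < ((K : ℝ) ^ δ * A ^ L * Mx) ^ m := by positivity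
  rw [← mul_le_mul_iff_left₀ h5]
  refine (h3.trans h4).trans (le_of_eq ?_)
  have h6 : DT / (K : ℝ) ^ δ * ((K : ℝ) ^ δ * A ^ L * Mx) = DT * A ^ L * Mx := by
    field_simp
  rw [← h6, mul_pow]
  ring

end paths

end Pool.Agent.C4N.H91
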