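import Pool.Agent.Helper91_C4N.MrkB

/-!
# MRK, the conclusions on pairs of marked edges: generic lemma and combinatorics
-/

set_option autoImplicit false

open scoped BigOperators Classical

noncomputable section

namespace Pool.Agent.C4N.H91

open Finset
open Pool.Agent.C4K (PInj it)
open Pool.Agent.LAG (near Big)
open Pool.Agent.Helper13_Conc (mean mean_prod_dep mean_coord mean_sum mcd_abs)

section generic

variable {E α ι : Type} [Fintype E] [Fintype α] [Nonempty α]

/-- indicator of a set of coins -/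
def iT (T : Finset α) (a : α) : ℝ := if a ∈ T then 1 else 0

lemma iT_prod (T : Finset α) (F : Finset E) (ω : E → α) :
    ∏ e ∈ F, iT T (ω e) = if ∀ e ∈ F, ω e ∈ T then 1 else 0 := by
  by_cases h : ∀ e ∈ F, ω e ∈ T
  · rw [if_pos h]
    exact prod_eq_one fun e he => if_pos (h e he)
  · rw [if_neg h]
    push Not at h
    obtain ⟨e, he, h2⟩ := h
    exact prod_eq_zero he (if_neg h2)

lemma mean_iT_prod (T : Finset α) (F : Finset E) :
    mean (fun ω : E → α => ∏ e ∈ F, iT T (ω e)) = ((T.card : ℝ) / Fintype.card α) ^ F.card := by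
  rw [mean_prod_dep F (fun e => {e}) (fun i _ j _ hij => by simpa using hij)
    (fun e ω => iT T (ω e)) (fun e _ ω ω' h => by
      show iT T (ω e) = iT T (ω' e)
      rw [h e (mem_singleton_self e)])]
  rw [← prod_const]
  refine prod_congr rfl fun e _ => ?_
  rw [mean_coord e (fun a => iT T a)]
  congr 1
  unfold iT
  rw [sum_ite_mem, univ_inter, sum_const, nsmul_eq_mul, mul_one]

/-- the number of index sets all of whose coins are in `T` -/
lemma mk_dev (J : Finset ι) (F : ι → Finset E) (T : Finset α) (b : ℕ)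
    (hb : ∀ e, ∀ X ⊆ J, (∀ j ∈ X, e ∈ F j) → X.card ≤ b) (h3 : ∀ j ∈ J, (F j).card ≤ 3)
    (kk : ℝ) (hkk : 0 < kk) (hJ : 3 * (b : ℝ) * J.card ≤ kk) (t : ℝ) (ht : 0 ≤ t)
    (P : Finset (E → α)) (c : (E → α) → Finset ι)
    (hc : ∀ ω j, j ∈ c ω ↔ j ∈ J ∧ ∀ e ∈ F j, ω e ∈ T)
    (hP : ∀ ω ∈ P, t ≤ |((c ω).card : ℝ) -
      ∑ j ∈ J, ((T.card : ℝ) / Fintype.card α) ^ (F j).card|) :
    (P.card : ℝ) ≤ 2 * Real.exp (-(t ^ 2 / (2 * kk))) * Nat.card (E → α) := by
  rw [Nat.card_eq_fintype_card]
  set g : (E → α) → ℝ := fun ω => ∑ j ∈ J, ∏ e ∈ F j, iT T (ω e) with hg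
  have hcg : ∀ ω, ((c ω).card : ℝ) = g ω := by
    intro ω
    have h1 : c ω = J.filter fun j => ∀ e ∈ F j, ω e ∈ T := by
      ext j; rw [hc, mem_filter]
    rw [h1, hg]
    simp only [iT_prod]
    rw [sum_ite, sum_const_zero, add_zero, sum_const, nsmul_eq_mul, mul_one]
  have hmean : mean g = ∑ j ∈ J, ((T.card : ℝ) / Fintype.card α) ^ (F j).card := by
    rw [hg, mean_sum J (fun j ω => ∏ e ∈ F j, iT T (ω e))]
    exact sum_congr rfl fun j _ => mean_iT_prod T (F j)
  set cc : E → ℝ := fun e => ((J.filter fun j => e ∈ F j).card : ℝ) with hcc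
  have hccb : ∀ e, cc e ≤ b := by
    intro e
    have := hb e (J.filter fun j => e ∈ F j) (filter_subset _ _)
      (fun j hj => (mem_filter.mp hj).2)
    simp only [hcc]
    exact_mod_cast this
  have hcc0 : ∀ e, 0 ≤ cc e := fun e => Nat.cast_nonneg _
  have hsum : ∑ e, cc e ≤ 3 * J.card := by
    have h1 : ∑ e : E, (J.filter fun j => e ∈ F j).card = ∑ j ∈ J, (F j).card := by
      simp only [card_filter]
      rw [sum_comm]
      refine sum_congr rfl fun j _ => ?_
      rw [sum_ite_mem, univ_inter, sum_const, smul_eq_mul, mul_one]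
    have h2 : ∑ j ∈ J, (F j).card ≤ J.card * 3 := by
      rw [← smul_eq_mul]
      exact sum_le_card_nsmul J _ 3 h3
    simp only [hcc]
    have h4 : (∑ e : E, ((J.filter fun j => e ∈ F j).card : ℝ)) =
        ((∑ j ∈ J, (F j).card : ℕ) : ℝ) := by
      rw [← h1]; push_cast; rfl
    rw [h4]
    have h5 : ((∑ j ∈ J, (F j).card : ℕ) : ℝ) ≤ ((J.card * 3 : ℕ) : ℝ) := by exact_mod_cast h2
    push_cast at h5 ⊢
    linarith
  have hmc := mcd_abs g cc (by
    intro v ω ω' h
    have h1 : g ω - g ω' = ∑ j ∈ J.filter (fun j => v ∈ F j),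
        ((∏ e ∈ F j, iT T (ω e)) - ∏ e ∈ F j, iT T (ω' e)) := by
      rw [hg]
      simp only
      rw [← sum_sub_distrib, sum_filter]
      refine sum_congr rfl fun j _ => ?_
      by_cases hv : v ∈ F j
      · rw [if_pos hv]
      · rw [if_neg hv, sub_eq_zero]
        refine prod_congr rfl fun e he => ?_
        rw [h e (fun h' => hv (h' ▸ he))]
    rw [h1]
    refine (abs_sum_le_sum_abs _ _).trans ?_
    have h2 : ∀ j ∈ J.filter (fun j => v ∈ F j),
        |(∏ e ∈ F j, iT T (ω e)) - ∏ e ∈ F j, iT T (ω' e)| ≤ 1 := by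
      intro j _
      rw [iT_prod, iT_prod]
      split_ifs <;> norm_num
    refine (sum_le_card_nsmul _ _ 1 h2).trans (le_of_eq ?_)
    rw [nsmul_eq_mul, mul_one]) kk t (by
    calc ∑ e, cc e ^ 2 ≤ ∑ e, b * cc e := by
          refine sum_le_sum fun e _ => ?_
          rw [pow_two]
          exact mul_le_mul_of_nonneg_right (hccb e) (hcc0 e)
      _ = b * ∑ e, cc e := (mul_sum _ _ _).symm
      _ ≤ b * (3 * J.card) := mul_le_mul_of_nonneg_left hsum (Nat.cast_nonneg _)
      _ = 3 * b * J.card := by ring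
      _ ≤ kk := hJ) hkk ht (fun ω => ω ∈ P) (by
    intro ω hω
    rw [hmean, ← hcg]
    exact hP ω hω)
  have h4 : (univ.filter fun ω : E → α => ω ∈ P) = P := by
    ext ω; simp
  rw [h4] at hmc
  exact hmc

end generic

section edges

variable {V : Type} [Fintype V] {K : ℕ}

/-- the edges of a relation -/
def Er (P : V → V → Prop) : Finset (Sym2 V) := univ.filter fun e => ∃ x y, e = s(x, y) ∧ P x y

lemma mem_Er {P : V → V → Prop} {e : Sym2 V} : e ∈ Er P ↔ ∃ x y, e = s(x, y) ∧ P x y := by
  simp [Er]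

/-- the edges of a class at `y` -/
def Fb (f : V → Option V) (y : V) : Finset (Sym2 V) :=
  Er fun a b => f a = some b ∧ (a = y ∨ b = y)

lemma mem_of_Fb {f : V → Option V} {y : V} {e : Sym2 V} (h : e ∈ Fb f y) : y ∈ e := by
  obtain ⟨a, b, rfl, _, rfl | rfl⟩ := mem_Er.mp h
  · exact Sym2.mem_mk_left _ _
  · exact Sym2.mem_mk_right _ _

/-- both arcs at `y` exist -/
def full (f : V → Option V) (y : V) : Prop := (∃ z, f y = some z) ∧ ∃ z, f z = some y

lemma card_Fb {O : V → V → Prop} (asy : ∀ x y, O x y → ¬ O y x) {f : V → Option V}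
    (hinj : PInj f) (hf : ∀ x y, f x = some y → O x y) {y : V} (hy : full f y) :
    (Fb f y).card = 2 := by
  obtain ⟨⟨z, hz⟩, w, hw⟩ := hy
  have h1 : Fb f y = {s(y, z), s(w, y)} := by
    ext e
    simp only [mem_insert, mem_singleton, Fb, mem_Er]
    constructor
    · rintro ⟨a, b, rfl, h, rfl | rfl⟩
      · have : b = z := Option.some_injective _ (h.symm.trans hz)
        subst this
        exact Or.inl rfl
      · have : a = w := hinj _ _ _ h hw
        subst this
        exact Or.inr rfl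
    · rintro (rfl | rfl)
      · exact ⟨y, z, rfl, hz, Or.inl rfl⟩
      · exact ⟨w, y, rfl, hw, Or.inr rfl⟩
  rw [h1]
  apply card_pair
  intro h
  rw [Sym2.eq_iff] at h
  have hyz := hf _ _ hz
  have hwy := hf _ _ hw
  rcases h with ⟨rfl, rfl⟩ | ⟨_, rfl⟩
  · exact asy _ _ hyz hyz
  · exact asy _ _ hyz hwy

lemma both_iff (s : ℕ) (η : Sym2 V → Fin K) (T : Finset (Fin K)) (hT : ∀ t, t ∈ T ↔ t.1 < s)
    {n : ℕ} (f : Fin n → V → Option V) (i : Fin n) (hinj : PInj (f i)) (y : V) :
    both s η f i y ↔ full (f i) y ∧ ∀ e ∈ Fb (f i) y, η e ∈ T := by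
  constructor
  · rintro ⟨⟨z, hz, mz⟩, w, hw, mw⟩
    refine ⟨⟨⟨z, hz⟩, w, hw⟩, ?_⟩
    intro e he
    obtain ⟨a, b, rfl, h, rfl | rfl⟩ := mem_Er.mp he
    · have : b = z := Option.some_injective _ (h.symm.trans hz)
      subst this
      exact (hT _).mpr mz
    · have : a = w := hinj _ _ _ h hw
      subst this
      exact (hT _).mpr mw
  · rintro ⟨⟨⟨z, hz⟩, w, hw⟩, h⟩
    exact ⟨⟨z, hz, (hT _).mp (h _ (mem_Er.mpr ⟨y, z, rfl, hz, Or.inl rfl⟩))⟩,
      w, hw, (hT _).mp (h _ (mem_Er.mpr ⟨w, y, rfl, hw, Or.inr rfl⟩))⟩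

lemma card_mem_le (e : Sym2 V) (X : Finset V) (hX : ∀ y ∈ X, y ∈ e) : X.card ≤ 2 := by
  induction e with
  | _ a b =>
    have h : X ⊆ {a, b} := by
      intro y hy
      have := hX y hy
      rw [Sym2.mem_iff] at this
      simpa using this
    exact (card_le_card h).trans card_le_two

/-- neighbours in a class -/
def nbr (f : V → Option V) (v z : V) : Prop := f v = some z ∨ f z = some v

lemma nbr_inj_left {f : V → Option V} (hinj : PInj f) {v z z' : V} (h : nbr f v z)
    (h' : nbr f v z') (hd : (f v = some z) ↔ (f v = some z')) : z = z' := by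
  by_cases h1 : f v = some z
  · exact Option.some_injective _ (h1.symm.trans (hd.mp h1))
  · have h2 : f z = some v := h.resolve_left h1
    have h3 : f z' = some v := h'.resolve_left fun h4 => h1 (hd.mpr h4)
    exact hinj _ _ _ h2 h3

lemma nbr_inj_right {f : V → Option V} (hinj : PInj f) {v v' z : V} (h : nbr f v z)
    (h' : nbr f v' z) (hd : (f v = some z) ↔ (f v' = some z)) : v = v' := by
  by_cases h1 : f v = some z
  · exact hinj _ _ _ h1 (hd.mp h1)
  · have h2 : f z = some v := h.resolve_left h1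
    have h3 : f z = some v' := h'.resolve_left fun h4 => h1 (hd.mpr h4)
    exact Option.some_injective _ (h2.symm.trans h3)

/-- pairs with a given set of first components -/
lemma card_pairs_left {f : V → Option V} (hinj : PInj f) (A : Finset V) (X : Finset (V × V))
    (hX : ∀ q ∈ X, q.1 ∈ A ∧ nbr f q.1 q.2) : X.card ≤ 2 * A.card := by
  have h1 : X.card ≤ (A ×ˢ (univ : Finset Bool)).card := by
    refine card_le_card_of_injOn (fun q => (q.1, decide (f q.1 = some q.2))) ?_ ?_
    · intro q hq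
      simp only [coe_product, coe_univ, Set.mem_prod, mem_coe, Set.mem_univ, and_true]
      exact (hX q hq).1
    · intro q hq q' hq' h
      simp only [Prod.mk.injEq, decide_eq_decide] at h
      obtain ⟨h1, h2⟩ := h
      have h3 := (hX q hq).2
      have h4 := (hX q' hq').2
      rw [← h1] at h4 h2
      exact Prod.ext h1 (nbr_inj_left hinj h3 h4 h2)
  rw [card_product, card_univ, Fintype.card_bool] at h1
  omega

/-- pairs with a given set of second components -/
lemma card_pairs_right {f : V → Option V} (hinj : PInj f) (A : Finset V) (X : Finset (V × V))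
    (hX : ∀ q ∈ X, q.2 ∈ A ∧ nbr f q.1 q.2) : X.card ≤ 2 * A.card := by
  have h1 : X.card ≤ (A ×ˢ (univ : Finset Bool)).card := by
    refine card_le_card_of_injOn (fun q => (q.2, decide (f q.1 = some q.2))) ?_ ?_
    · intro q hq
      simp only [coe_product, coe_univ, Set.mem_prod, mem_coe, Set.mem_univ, and_true]
      exact (hX q hq).1
    · intro q hq q' hq' h
      simp only [Prod.mk.injEq, decide_eq_decide] at h
      obtain ⟨h1, h2⟩ := h
      have h3 := (hX q hq).2
      have h4 := (hX q' hq').2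
      rw [← h1] at h4 h2
      exact Prod.ext (nbr_inj_right hinj h3 h4 h2) h1
  rw [card_product, card_univ, Fintype.card_bool] at h1
  omega

lemma card_pairs_edge {f : V → Option V} (hinj : PInj f) (e : Sym2 V) (X : Finset (V × V))
    (hX : ∀ q ∈ X, e ∈ Fb f q.2 ∧ nbr f q.1 q.2) : X.card ≤ 4 := by
  have h1 := card_pairs_right hinj (univ.filter fun z => z ∈ e) X (fun q hq =>
    ⟨by simpa using mem_of_Fb (hX q hq).1, (hX q hq).2⟩)
  have h2 := card_mem_le e (univ.filter fun z => z ∈ e) (fun y hy => by simpa using hy)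
  omega

/-- the edges `s(y, v)` and those of the class at `z` -/
lemma card_pairs_edge' {f : V → Option V} (hinj : PInj f) (y : V) (e : Sym2 V)
    (X : Finset (V × V)) (hX : ∀ q ∈ X, e ∈ insert s(y, q.1) (Fb f q.2) ∧ nbr f q.1 q.2) :
    X.card ≤ 6 := by
  have h0 : X.card ≤ (X.filter fun q => e = s(y, q.1)).card +
      (X.filter fun q => e ∈ Fb f q.2).card := by
    refine (card_le_card ?_).trans (card_union_le _ _)
    intro q hq
    have h := (hX q hq).1
    rw [mem_insert] at h
    rw [mem_union, mem_filter, mem_filter]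
    rcases h with h | h
    · exact Or.inl ⟨hq, h⟩
    · exact Or.inr ⟨hq, h⟩
  have h1 : (X.filter fun q => e ∈ Fb f q.2).card ≤ 4 :=
    card_pairs_edge hinj e _ fun q hq => ⟨(mem_filter.mp hq).2, (hX q (mem_filter.mp hq).1).2⟩
  have h2 : (X.filter fun q => e = s(y, q.1)).card ≤ 2 := by
    rcases (X.filter fun q => e = s(y, q.1)).eq_empty_or_nonempty with h | ⟨q0, hq0⟩
    · rw [h, card_empty]; omega
    · have h3 := card_pairs_left hinj {q0.1} (X.filter fun q => e = s(y, q.1)) (fun q hq => by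
        refine ⟨?_, (hX q (mem_filter.mp hq).1).2⟩
        rw [mem_singleton]
        have h4 := (mem_filter.mp hq).2
        have h5 := (mem_filter.mp hq0).2
        rw [h4] at h5
        exact Sym2.congr_right.mp h5)
      rw [card_singleton] at h3
      omega
  omega

end edges

end Pool.Agent.C4N.H91
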